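import Pool.Agent.Q139.Baz.Atom

namespace Pool.Agent.Q139.Mal
open Pool.Agent.Q139.Baz Metric

/-- Jack's lemma, basic form: at a maximum point of `|φ|` on `|z| ≤ r` the number
`conj (φ z) * (z * φ' z)` is real and nonnegative. -/
theorem jack {φ : ℂ → ℂ} {ρ r : ℝ} (hφ : DifferentiableOn ℂ φ (ball 0 ρ)) (hr : 0 < r)
    (hrρ : r < ρ) : ∃ z : ℂ, ‖z‖ = r ∧ (∀ w : ℂ, ‖w‖ ≤ r → ‖φ w‖ ≤ ‖φ z‖) ∧
      ∃ κ : ℝ, 0 ≤ κ ∧ (starRingEnd ℂ) (φ z) * (z * deriv φ z) = κ := by
  have hsub : closedBall (0 : ℂ) r ⊆ ball 0 ρ := closedBall_subset_ball hrρ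
  have hd : DiffContOnCl ℂ φ (ball 0 r) := by
    apply DifferentiableOn.diffContOnCl
    rw [closure_ball _ hr.ne']
    exact hφ.mono hsub
  obtain ⟨z, hz, hmax⟩ := Complex.exists_mem_frontier_isMaxOn_norm (isBounded_ball)
    (nonempty_ball.2 hr) hd
  rw [frontier_ball _ hr.ne', mem_sphere_zero_iff_norm] at hz
  rw [closure_ball _ hr.ne'] at hmax
  have hm : ∀ w : ℂ, ‖w‖ ≤ r → ‖φ w‖ ≤ ‖φ z‖ := by
    intro w hw
    exact hmax (mem_closedBall_zero_iff.2 hw)
  refine ⟨z, hz, hm, ?_⟩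
  have hzρ : z ∈ ball (0 : ℂ) ρ := by rw [mem_ball_zero_iff, hz]; exact hrρ
  have hdz : HasDerivAt φ (deriv φ z) z :=
    (hφ.differentiableAt (isOpen_ball.mem_nhds hzρ)).hasDerivAt
  obtain ⟨c, hc⟩ : ∃ c, c = (starRingEnd ℂ) (φ z) * (z * deriv φ z) := ⟨_, rfl⟩
  -- curves
  have key : ∀ a : ℂ, HasDerivAt (fun t : ℝ => ‖φ (z * Complex.exp (a * t))‖ ^ 2)
      (2 * (a * c).re) 0 := by
    intro a
    have h1 : HasDerivAt (fun t : ℝ => z * Complex.exp (a * t)) (z * a) 0 := by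
      have h2 : HasDerivAt (fun t : ℂ => z * Complex.exp (a * t)) (z * a) ((0 : ℝ) : ℂ) := by
        have h3 : HasDerivAt (fun t : ℂ => a * t) a ((0 : ℝ) : ℂ) := by
          simpa using (hasDerivAt_id ((0 : ℝ) : ℂ)).const_mul a
        have h4 := (h3.cexp).const_mul z
        simpa using h4
      exact h2.comp_ofReal
    have h5 : HasDerivAt φ (deriv φ z) (z * Complex.exp (a * (0 : ℝ))) := by simpa using hdz
    have h6 : HasDerivAt (fun t : ℝ => φ (z * Complex.exp (a * t))) (deriv φ z * (z * a)) 0 :=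
      HasDerivAt.comp (0 : ℝ) h5 h1
    have h7 := h6.norm_sq
    convert! h7 using 1
    rw [Complex.inner, hc]
    simp only [Complex.ofReal_zero, mul_zero, Complex.exp_zero, mul_one]
    congr 2
    ring
  have him : c.im = 0 := by
    have h1 := key Complex.I
    have h2 : IsLocalMax (fun t : ℝ => ‖φ (z * Complex.exp (Complex.I * t))‖ ^ 2) 0 := by
      apply Filter.Eventually.of_forall
      intro t
      have h3 : ‖φ (z * Complex.exp (Complex.I * t))‖ ≤ ‖φ z‖ := by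
        apply hm
        rw [norm_mul, mul_comm Complex.I, Complex.norm_exp_ofReal_mul_I, mul_one, hz]
      have h4 := pow_le_pow_left₀ (norm_nonneg _) h3 2
      simpa using h4
    have h3 := h2.hasDerivAt_eq_zero h1
    rw [Complex.I_mul_re] at h3
    linarith
  have hre : 0 ≤ c.re := by
    have h1 := key 1
    simp only [one_mul] at h1
    have h2 := (hasDerivAt_iff_tendsto_slope.1 h1).mono_left
      (nhdsWithin_mono (0 : ℝ) (fun x (hx : x ∈ Set.Iio (0 : ℝ)) => ne_of_lt hx))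
    have h3 : 0 ≤ 2 * c.re := by
      apply ge_of_tendsto h2
      filter_upwards [self_mem_nhdsWithin] with t ht
      have ht' : t < 0 := ht
      rw [slope_def_field]
      apply div_nonneg_of_nonpos
      · have h3 : ‖φ (z * Complex.exp (t : ℂ))‖ ≤ ‖φ z‖ := by
          apply hm
          rw [norm_mul, hz, Complex.norm_exp, Complex.ofReal_re]
          have : Real.exp t ≤ 1 := Real.exp_le_one_iff.2 ht'.le
          nlinarith
        have h4 := pow_le_pow_left₀ (norm_nonneg _) h3 2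
        simp only [Complex.ofReal_zero, Complex.exp_zero, mul_one]
        linarith
      · linarith
    linarith
  refine ⟨c.re, hre, ?_⟩
  rw [← hc]
  apply Complex.ext
  · simp
  · simp [him]

/-- at a minimum point of `Re g` on `|z| ≤ r` the number `z g'(z)` is real and `≤ 0`. -/
theorem jack_re {g : ℂ → ℂ} {ρ r : ℝ} (hg : DifferentiableOn ℂ g (ball 0 ρ)) (hr : 0 < r)
    (hrρ : r < ρ) : ∃ z : ℂ, ‖z‖ = r ∧ (∀ w : ℂ, ‖w‖ ≤ r → (g z).re ≤ (g w).re) ∧
      ∃ κ : ℝ, 0 ≤ κ ∧ z * deriv g z = -(κ : ℂ) := by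
  have h1 : DifferentiableOn ℂ (fun z => Complex.exp (- g z)) (ball 0 ρ) := hg.neg.cexp
  obtain ⟨z, hz, hm, κ, hκ, he⟩ := jack h1 hr hrρ
  have hzρ : z ∈ ball (0 : ℂ) ρ := by rw [mem_ball_zero_iff, hz]; exact hrρ
  have hdz : HasDerivAt g (deriv g z) z :=
    (hg.differentiableAt (isOpen_ball.mem_nhds hzρ)).hasDerivAt
  refine ⟨z, hz, ?_, ?_⟩
  · intro w hw
    have h2 := hm w hw
    rw [Complex.norm_exp, Complex.norm_exp, Real.exp_le_exp, Complex.neg_re, Complex.neg_re] at h2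
    linarith
  · have h3 : deriv (fun z => Complex.exp (- g z)) z = Complex.exp (- g z) * (- deriv g z) :=
      (hdz.neg.cexp).deriv
    rw [h3] at he
    obtain ⟨E, hE⟩ : ∃ E, E = Complex.exp (- g z) := ⟨_, rfl⟩
    rw [← hE] at he
    have hE0 : E ≠ 0 := by rw [hE]; exact Complex.exp_ne_zero _
    have hn : 0 < ‖E‖ ^ 2 := by positivity
    have h4 : (starRingEnd ℂ) E * E = ((‖E‖ ^ 2 : ℝ) : ℂ) := by
      rw [mul_comm, Complex.mul_conj, Complex.normSq_eq_norm_sq]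
    refine ⟨κ / ‖E‖ ^ 2, by positivity, ?_⟩
    have h5 : ((‖E‖ ^ 2 : ℝ) : ℂ) * (z * deriv g z) = - κ := by
      rw [← h4]
      linear_combination -he
    have h6 : ((‖E‖ ^ 2 : ℝ) : ℂ) ≠ 0 := by exact_mod_cast hn.ne'
    apply mul_left_cancel₀ h6
    rw [h5]
    push_cast
    push_cast at h6
    rw [mul_neg, mul_div_cancel₀ _ h6]

end Pool.Agent.Q139.Mal
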