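import Pool.Agent.Q139.Mal.Comp

namespace Pool.Agent.Q139.Mal
open Pool.Agent.Q139.Baz Metric Finset PowerSeries

/-- the analytic conditions of an alpha-convex function -/
structure AC (α : ℝ) (f : ℂ → ℂ) : Prop where
  diff : DifferentiableOn ℂ f (ball 0 1)
  zero : f 0 = 0
  one : deriv f 0 = 1
  ne : ∀ z ∈ ball (0 : ℂ) 1, z ≠ 0 → f z ≠ 0
  dne : ∀ z ∈ ball (0 : ℂ) 1, deriv f z ≠ 0
  re : ∀ z ∈ ball (0 : ℂ) 1, z ≠ 0 →
    0 < (α * (1 + z * deriv (deriv f) z / deriv f z) + (1 - α) * (z * deriv f z / f z)).re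

section
variable {α : ℝ} {f : ℂ → ℂ}

/-- `F = f(z)/z`. -/
lemma AC.F_diff (h : AC α f) : DifferentiableOn ℂ (dslope f 0) (ball 0 1) := dslope_diff h.diff

lemma AC.F_eq (h : AC α f) (z : ℂ) : f z = z * dslope f 0 z := by
  have := dslope_eq f z
  rwa [h.zero, zero_add] at this

lemma AC.F_ne (h : AC α f) {z : ℂ} (hz : z ∈ ball (0 : ℂ) 1) : dslope f 0 z ≠ 0 := by
  rcases eq_or_ne z 0 with rfl | hz0
  · rw [dslope_same, h.one]; exact one_ne_zero
  · intro h0
    have := h.F_eq z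
    rw [h0, mul_zero] at this
    exact h.ne z hz hz0 this

lemma AC.dF (h : AC α f) {z : ℂ} (hz : z ∈ ball (0 : ℂ) 1) :
    deriv f z = dslope f 0 z + z * deriv (dslope f 0) z := by
  have h1 : HasDerivAt (dslope f 0) (deriv (dslope f 0) z) z :=
    (anal h.F_diff hz).differentiableAt.hasDerivAt
  have h2 := (hasDerivAt_id z).mul h1
  have h3 : f = fun z => z * dslope f 0 z := funext h.F_eq
  have h4 : HasDerivAt f (dslope f 0 z + z * deriv (dslope f 0) z) z := by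
    conv => arg 1; rw [h3]
    convert! h2 using 1
    simp
  exact h4.deriv

/-- `q = z f'/f` -/
noncomputable def qf (f : ℂ → ℂ) (z : ℂ) : ℂ := deriv f z / dslope f 0 z

/-- `y = 1/q` -/
noncomputable def yf (f : ℂ → ℂ) (z : ℂ) : ℂ := dslope f 0 z / deriv f z

/-- the function `p` -/
noncomputable def pf (α : ℝ) (f : ℂ → ℂ) (z : ℂ) : ℂ :=
  α * (1 + z * deriv (deriv f) z / deriv f z) + (1 - α) * qf f z

lemma AC.df_diff (h : AC α f) : DifferentiableOn ℂ (deriv f) (ball 0 1) :=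
  h.diff.deriv isOpen_ball

lemma AC.q_diff (h : AC α f) : DifferentiableOn ℂ (qf f) (ball 0 1) :=
  h.df_diff.div h.F_diff (fun _ hz => h.F_ne hz)

lemma AC.y_diff (h : AC α f) : DifferentiableOn ℂ (yf f) (ball 0 1) :=
  h.F_diff.div h.df_diff (fun _ hz => h.dne _ hz)

lemma AC.p_diff (h : AC α f) : DifferentiableOn ℂ (pf α f) (ball 0 1) := by
  have h1 : DifferentiableOn ℂ (deriv (deriv f)) (ball 0 1) := h.df_diff.deriv isOpen_ball
  have h2 : DifferentiableOn ℂ (fun z => z * deriv (deriv f) z / deriv f z) (ball 0 1) :=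
    (differentiableOn_id.mul h1).div h.df_diff h.dne
  exact ((h2.const_add 1).const_mul _).add (h.q_diff.const_mul _)

lemma AC.q0 (h : AC α f) : qf f 0 = 1 := by
  rw [qf, dslope_same, h.one]; simp

lemma AC.y0 (h : AC α f) : yf f 0 = 1 := by
  rw [yf, dslope_same, h.one]; simp

lemma AC.p0 (h : AC α f) : pf α f 0 = 1 := by
  rw [pf, h.q0]; simp

lemma AC.p_re (h : AC α f) {z : ℂ} (hz : z ∈ ball (0 : ℂ) 1) : 0 < (pf α f z).re := by
  rcases eq_or_ne z 0 with rfl | hz0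
  · rw [h.p0]; simp
  · have h1 := h.re z hz hz0
    have h2 : z * deriv f z / f z = qf f z := by
      rw [qf, h.F_eq z]
      have := h.F_ne hz
      field_simp
    rw [h2] at h1
    exact h1

lemma AC.ode (h : AC α f) {z : ℂ} (hz : z ∈ ball (0 : ℂ) 1) :
    α * (z * deriv (yf f) z) + pf α f z * yf f z = 1 := by
  have h1 : HasDerivAt (dslope f 0) (deriv (dslope f 0) z) z :=
    (anal h.F_diff hz).differentiableAt.hasDerivAt
  have h2 : HasDerivAt (deriv f) (deriv (deriv f) z) z :=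
    (anal h.df_diff hz).differentiableAt.hasDerivAt
  have h3 : deriv (yf f) z = _ := (h1.div h2 (h.dne z hz)).deriv
  rw [h3, pf, qf, yf]
  have h4 := h.dF hz
  have h5 := h.F_ne hz
  have h6 := h.dne z hz
  have h7 : z * deriv (dslope f 0) z = deriv f z - dslope f 0 z := by rw [h4]; ring
  field_simp
  linear_combination (α * deriv f z) * h7

lemma AC.y_re (hα : 0 < α) (h : AC α f) {z : ℂ} (hz : z ∈ ball (0 : ℂ) 1) : 0 < (yf f z).re :=
  pos_of_ode hα h.y_diff (fun _ hz => h.p_re hz) (fun _ hz => h.ode hz) z hz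

lemma qy (f : ℂ → ℂ) (z : ℂ) : qf f z = (yf f z)⁻¹ := by
  rw [qf, yf, inv_div]

lemma AC.q_re (hα : 0 < α) (h : AC α f) {z : ℂ} (hz : z ∈ ball (0 : ℂ) 1) : 0 < (qf f z).re := by
  rw [qy]
  exact inv_re_pos (h.y_re hα hz)

/-- `f' = W q^(1-α)` with `z W' = W (p - 1)`. -/
theorem AC.factor (h : AC α f) : ∃ B : PowerSeries ℂ, (∀ a, ‖coeff a B‖ ≤ 1) ∧
    ts (deriv f) = B * B * pw ((1 - α : ℝ) : ℂ) (ts (qf f)) := by
  obtain ⟨U, hU⟩ : ∃ U, U = ts (deriv f) := ⟨_, rfl⟩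
  obtain ⟨Q, hQ⟩ : ∃ Q, Q = ts (qf f) := ⟨_, rfl⟩
  obtain ⟨P, hP⟩ : ∃ P, P = ts (pf α f) := ⟨_, rfl⟩
  obtain ⟨S, hS⟩ : ∃ S, S = ts (dslope f 0) := ⟨_, rfl⟩
  have hUa : AnalyticAt ℂ (deriv f) 0 := anal h.df_diff zero_mem
  have hQa : AnalyticAt ℂ (qf f) 0 := anal h.q_diff zero_mem
  have hPa : AnalyticAt ℂ (pf α f) 0 := anal h.p_diff zero_mem
  have hSa : AnalyticAt ℂ (dslope f 0) 0 := anal h.F_diff zero_mem
  have hU0 : constantCoeff U = 1 := by rw [hU, constantCoeff_ts, h.one]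
  have hQ0 : constantCoeff Q = 1 := by rw [hQ, constantCoeff_ts, h.q0]
  have hP0 : constantCoeff P = 1 := by rw [hP, constantCoeff_ts, h.p0]
  have hS0 : constantCoeff S = 1 := by rw [hS, constantCoeff_ts, dslope_same, h.one]
  have hQS : Q * S = U := by
    rw [hQ, hS, hU, ← ts_mul hQa hSa]
    apply ts_congr
    filter_upwards [ball_nhds] with z hz
    rw [qf]
    have := h.F_ne hz
    field_simp
  have hDS : D S = U - S := by
    have hzS : AnalyticAt ℂ (fun z : ℂ => z * deriv (dslope f 0) z) 0 := analyticAt_id.mul hSa.deriv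
    have h1 : U = S + D S := by
      rw [hS, hU, D_ts hSa, ← ts_add hSa hzS]
      apply ts_congr
      filter_upwards [ball_nhds] with z hz
      exact h.dF hz
    rw [h1]; ring
  -- the equation for U
  have hDU : C (α : ℂ) * D U = U * (P - C (α : ℂ) - C ((1 - α : ℝ) : ℂ) * Q) := by
    have hzU : AnalyticAt ℂ (fun z : ℂ => z * deriv (deriv f) z) 0 := analyticAt_id.mul hUa.deriv
    have e1 : U * P = C (α : ℂ) * U + C (α : ℂ) * D U + C ((1 - α : ℝ) : ℂ) * (U * Q) := by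
      have a1 : AnalyticAt ℂ (fun z => (α : ℂ) * deriv f z) 0 := analyticAt_const.mul hUa
      have a2 : AnalyticAt ℂ (fun z => (α : ℂ) * (z * deriv (deriv f) z)) 0 :=
        analyticAt_const.mul hzU
      have a3 : AnalyticAt ℂ (fun z => deriv f z * qf f z) 0 := hUa.mul hQa
      have a4 : AnalyticAt ℂ (fun z => ((1 - α : ℝ) : ℂ) * (deriv f z * qf f z)) 0 :=
        analyticAt_const.mul a3
      have a5 : AnalyticAt ℂ (fun z => (α : ℂ) * deriv f z + (α : ℂ) * (z * deriv (deriv f) z)) 0 :=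
        a1.add a2
      rw [hU, hP, hQ, D_ts hUa, ← ts_mul hUa hPa, ← ts_const_mul hUa, ← ts_const_mul hzU,
        ← ts_mul hUa hQa, ← ts_const_mul a3, ← ts_add a1 a2, ← ts_add a5 a4]
      apply ts_congr
      filter_upwards [ball_nhds] with z hz
      rw [pf]
      have := h.dne z hz
      push_cast
      field_simp
    linear_combination -e1
  -- D Q
  have hS1 : S ≠ 0 := by intro h; rw [h] at hS0; simp at hS0
  have hU1 : U ≠ 0 := by intro h; rw [h] at hU0; simp at hU0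
  have hQ1 : Q ≠ 0 := by intro h; rw [h] at hQ0; simp at hQ0
  have hDQ : U * D Q = Q * D U - Q * U * (Q - 1) := by
    have h1 : D Q * S + Q * D S = D U := by rw [← D_mul, hQS]
    rw [hDS] at h1
    linear_combination Q * h1 + (-D Q + Q) * hQS
  -- the power
  obtain ⟨V, hV⟩ : ∃ V, V = pw ((1 - α : ℝ) : ℂ) Q := ⟨_, rfl⟩
  have hVp := isPow_pw ((1 - α : ℝ) : ℂ) hQ0
  rw [← hV] at hVp
  have hV0 : constantCoeff V ≠ 0 := by rw [hVp.1]; exact one_ne_zero
  have hVi : V * V⁻¹ = 1 := PowerSeries.mul_inv_cancel V hV0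
  obtain ⟨W, hW⟩ : ∃ W, W = U * V⁻¹ := ⟨_, rfl⟩
  have hWV : W * V = U := by rw [hW]; linear_combination U * hVi
  have hV1 : V ≠ 0 := by intro h; rw [h] at hV0; simp at hV0
  have hW0 : constantCoeff W = 1 := by
    have := congrArg constantCoeff hWV
    rw [map_mul, hVp.1, mul_one, hU0] at this
    exact this
  have hDW : D W = W * (P - 1) := by
    have h1 : D W * V + W * D V = D U := by rw [← D_mul, hWV]
    have hcα : C ((1 - α : ℝ) : ℂ) = 1 - C (α : ℂ) := by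
      rw [← map_one C, ← map_sub]; push_cast; rfl
    rw [hcα] at hDU
    have h2 := hVp.2
    rw [hcα] at h2
    -- multiply by V * U * Q
    apply mul_left_cancel₀ (mul_ne_zero hV1 (mul_ne_zero hU1 hQ1))
    have e1 : U * (Q * D V) = (1 - C (α : ℂ)) * (V * (Q * D U - Q * U * (Q - 1))) := by
      rw [← hDQ]; linear_combination U * h2
    linear_combination (U * Q) * h1 - W * e1 + W * V * Q * hDU - (Q * D U) * hWV
  obtain ⟨B, hB1, hB2⟩ := sqrt_series hW0 hP0 (by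
    intro k hk
    rw [hP, coeff_ts]
    exact caratheodory h.p_diff h.p0 (fun _ hz => h.p_re hz) hk) hDW
  refine ⟨B, hB1, ?_⟩
  rw [hB2, ← hQ, ← hV, hWV, hU]

/-- The coefficient bound. -/
theorem AC.bound (hα : 0 < α) (h : AC α f) {Y : ℂ → ℂ} (hY : YData α Y)
    {Qr : PowerSeries ℝ} (hQr : ts (fun z => (Y z)⁻¹) = cx Qr) (hnn : NN (pw (1 - α) Qr)) (m : ℕ) :
    ‖tc (deriv f) m‖ ≤ ∑ k ∈ range (m + 1), coeff k (pw (1 - α) Qr) * (((m - k : ℕ) : ℝ) + 1) := by
  obtain ⟨B, hB1, hB2⟩ := h.factor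
  obtain ⟨ω, hωd, hωs, hωY⟩ := hY.sub hα h.y_diff h.y0 h.p_diff h.p0 (fun _ hz => h.p_re hz)
    (fun _ hz => h.ode hz)
  have hωm : ∀ z ∈ ball (0 : ℂ) 1, ω z ∈ ball (0 : ℂ) 1 := by
    intro z hz
    rw [mem_ball_zero_iff] at hz ⊢
    exact lt_of_le_of_lt (hωs z (by rwa [mem_ball_zero_iff])) hz
  obtain ⟨g, hg⟩ : ∃ g : ℂ → ℂ, g = fun w =>
      Complex.exp (((1 - α : ℝ) : ℂ) * Complex.log ((Y w)⁻¹)) := ⟨_, rfl⟩
  have hYi0 : (Y 0)⁻¹ = 1 := by rw [hY.zero, inv_one]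
  have hgd : DifferentiableOn ℂ g (ball 0 1) := by
    rw [hg]
    exact (((hY.qdiff hα).clog (fun z hz => Or.inl (inv_re_pos (hY.re hα hz)))).const_mul _).cexp
  have hQ0 : constantCoeff Qr = 1 := by
    have := congrArg constantCoeff hQr
    rw [constantCoeff_ts, hYi0, constantCoeff_cx] at this
    exact_mod_cast this.symm
  have hgts : ts g = cx (pw (1 - α) Qr) := by
    rw [hg, ts_cpow (hY.qdiff hα) hYi0 (fun z hz => inv_re_pos (hY.re hα hz)), hQr,
      pw_cx _ hQ0]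
  have hgω : pw ((1 - α : ℝ) : ℂ) (ts (qf f)) = ts (fun z => g (ω z)) := by
    rw [← ts_cpow h.q_diff h.q0 (fun z hz => h.q_re hα hz)]
    apply ts_congr
    filter_upwards [ball_nhds] with z hz
    rw [hg]
    simp only
    rw [hωY z hz, qy]
  rw [← coeff_ts, hB2, hgω]
  apply comp_bound hB1 hωd hωs hgd hnn
  intro k
  rw [← coeff_ts, hgts, coeff_cx]

end

end Pool.Agent.Q139.Mal
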