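import Pool.Agent.Q139.Mal.Nprop

namespace Pool.Agent.Q139.Mal
open Pool.Agent.Q139.Baz Metric

section
variable {α : ℝ} {Y : ℂ → ℂ}

/-- inverse function of `Y` -/
theorem YData.exists_inverse (hα : 0 < α) (h : YData α Y) : ∃ g : ℂ → ℂ,
    (∀ z ∈ ball (0 : ℂ) 1, g (Y z) = z) ∧
    ∀ z ∈ ball (0 : ℂ) 1, HasDerivAt g (deriv Y z)⁻¹ (Y z) := by
  obtain ⟨g, hg⟩ : ∃ g, g = Function.invFunOn Y (ball 0 1) := ⟨_, rfl⟩
  have hinj := h.inj hα
  have hgl : ∀ z ∈ ball (0 : ℂ) 1, g (Y z) = z := by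
    intro z hz
    rw [hg]
    exact hinj.leftInvOn_invFunOn hz
  have hopen : ∀ z ∈ ball (0 : ℂ) 1, Filter.map Y (nhds z) = nhds (Y z) := by
    intro z hz
    have h1 : HasStrictDerivAt Y (deriv Y z) z := (anal h.diff hz).hasStrictDerivAt
    exact h1.map_nhds_eq (h.deriv_ne hα hz)
  refine ⟨g, hgl, ?_⟩
  intro z hz
  have hd : HasDerivAt Y (deriv Y z) (g (Y z)) := by
    rw [hgl z hz]
    exact (anal h.diff hz).differentiableAt.hasDerivAt
  have hcont : ContinuousAt g (Y z) := by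
    rw [ContinuousAt, hgl z hz]
    intro V hV
    have h1 : V ∩ ball 0 1 ∈ nhds z := Filter.inter_mem hV (isOpen_ball.mem_nhds hz)
    have h2 : Y '' (V ∩ ball 0 1) ∈ nhds (Y z) := by
      rw [← hopen z hz]
      exact Filter.image_mem_map h1
    rw [Filter.mem_map]
    filter_upwards [h2] with w hw
    obtain ⟨v, hv, rfl⟩ := hw
    show g (Y v) ∈ V
    rw [hgl v hv.2]
    exact hv.1
  apply HasDerivAt.of_local_left_inverse hcont hd (h.deriv_ne hα hz)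
  have h2 : Y '' (ball 0 1) ∈ nhds (Y z) := by
    rw [← hopen z hz]
    exact Filter.image_mem_map (isOpen_ball.mem_nhds hz)
  filter_upwards [h2] with w hw
  obtain ⟨v, hv, rfl⟩ := hw
  rw [hgl v hv]

/-- The Schwarz lemma for functions of positive real part. -/
lemma schwarz_p {p : ℂ → ℂ} (hp : DifferentiableOn ℂ p (ball 0 1)) (hp0 : p 0 = 1)
    (hpos : ∀ z ∈ ball (0 : ℂ) 1, 0 < (p z).re) {z : ℂ} (hz : z ∈ ball (0 : ℂ) 1) :
    ∃ η : ℂ, ‖η‖ ≤ ‖z‖ ∧ p z = p0 η := by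
  have hP1 : ∀ P : ℂ, 0 < P.re → P + 1 ≠ 0 := by
    intro P hP h0
    have := congrArg Complex.re h0
    rw [Complex.add_re, Complex.one_re, Complex.zero_re] at this
    linarith
  have hcm : ∀ P : ℂ, 0 < P.re → (P - 1) / (P + 1) ∈ ball (0 : ℂ) 1 := by
    intro P hP
    rw [mem_ball_zero_iff]
    rw [norm_div, div_lt_one (norm_pos_iff.2 (hP1 P hP))]
    rw [← sq_lt_sq₀ (norm_nonneg _) (norm_nonneg _), ← Complex.normSq_eq_norm_sq,
      ← Complex.normSq_eq_norm_sq, Complex.normSq_apply, Complex.normSq_apply]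
    simp only [Complex.sub_re, Complex.one_re, Complex.sub_im, Complex.one_im, Complex.add_re,
      Complex.add_im]
    nlinarith
  have hd : DifferentiableOn ℂ (fun z => (p z - 1) / (p z + 1)) (ball 0 1) :=
    (hp.sub_const 1).div (hp.add_const 1) (fun w hw => hP1 _ (hpos w hw))
  have h1 : ‖(fun z => (p z - 1) / (p z + 1)) z‖ ≤ ‖z‖ := by
    apply Complex.norm_le_norm_of_mapsTo_ball hd
    · intro w hw
      exact ball_subset_closedBall (hcm _ (hpos w hw))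
    · simp [hp0]
    · rwa [mem_ball_zero_iff] at hz
  refine ⟨(p z - 1) / (p z + 1), h1, ?_⟩
  have h2 := hP1 _ (hpos z hz)
  rw [p0]
  have h3 : 1 - (p z - 1) / (p z + 1) = 2 / (p z + 1) := by field_simp; ring
  rw [h3]
  field_simp
  ring

/-- The key inequality. -/
lemma neg_re {η ξ : ℂ} (hξ : ξ ∈ ball (0 : ℂ) 1) (h : ‖η‖ < ‖ξ‖) :
    ((p0 η - p0 ξ) * (1 - ξ) ^ 2 / (2 * ξ)).re < 0 := by
  have hξn : ‖ξ‖ < 1 := by rwa [mem_ball_zero_iff] at hξ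
  have hξ0 : ξ ≠ 0 := by
    intro h0
    rw [h0, norm_zero] at h
    exact absurd h (not_lt.2 (norm_nonneg _))
  have hη : η ∈ ball (0 : ℂ) 1 := by rw [mem_ball_zero_iff]; linarith
  obtain ⟨τ, hτ⟩ : ∃ τ, τ = η / ξ := ⟨_, rfl⟩
  have hτ1 : τ ∈ ball (0 : ℂ) 1 := by
    rw [mem_ball_zero_iff, hτ, norm_div, div_lt_one (norm_pos_iff.2 hξ0)]
    exact h
  have hητ : η = τ * ξ := by rw [hτ]; field_simp
  have h1 := one_sub_ne hξ
  have h2 := one_sub_ne hη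
  have h3 := one_sub_ne hτ1
  obtain ⟨W, hW⟩ : ∃ W, W = (1 - τ)⁻¹ + (1 - ξ)⁻¹ - 1 := ⟨_, rfl⟩
  have hWre : 0 < W.re := by
    rw [hW, Complex.sub_re, Complex.add_re, Complex.one_re]
    have := re_inv_one_sub hξ
    have := re_inv_one_sub hτ1
    linarith
  have hWeq : W * ((1 - τ) * (1 - ξ)) = 1 - η := by
    rw [hW, hητ]
    field_simp
    ring
  have hW0 : W ≠ 0 := by
    intro h0; rw [h0] at hWre; simp at hWre
  have hX : (p0 η - p0 ξ) * (1 - ξ) ^ 2 / (2 * ξ) = -W⁻¹ := by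
    have e1 : (p0 η - p0 ξ) * (1 - ξ) ^ 2 / (2 * ξ) = -((1 - τ) * (1 - ξ) / (1 - η)) := by
      rw [p0, p0]
      rw [hητ] at h2 ⊢
      field_simp
      ring
    rw [e1, ← hWeq]
    field_simp
  rw [hX, Complex.neg_re]
  have := inv_re_pos hWre
  linarith

/-- local subordination: the inductive step. -/
theorem YData.local_sub (hα : 0 < α) (h : YData α Y) {y p ω : ℂ → ℂ}
    (hp : DifferentiableOn ℂ p (ball 0 1)) (hp0 : p 0 = 1)
    (hpos : ∀ z ∈ ball (0 : ℂ) 1, 0 < (p z).re)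
    (ode : ∀ z ∈ ball (0 : ℂ) 1, α * (z * deriv y z) + p z * y z = 1)
    {r : ℝ} (hr0 : 0 < r) (hr1 : r ≤ 1) (hω : DifferentiableOn ℂ ω (ball 0 r)) (hω0 : ω 0 = 0)
    (hωm : ∀ z ∈ ball (0 : ℂ) r, ω z ∈ ball (0 : ℂ) 1)
    (hωY : ∀ z ∈ ball (0 : ℂ) r, Y (ω z) = y z) :
    ∀ z ∈ ball (0 : ℂ) r, ‖ω z‖ ≤ ‖z‖ := by
  intro z0 hz0
  by_contra hcon
  push Not at hcon
  rw [mem_ball_zero_iff] at hz0
  have hz00 : z0 ≠ 0 := by
    intro h0
    rw [h0, hω0] at hcon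
    exact lt_irrefl _ hcon
  have hz0n : 0 < ‖z0‖ := norm_pos_iff.2 hz00
  obtain ⟨φ, hφ⟩ : ∃ φ, φ = dslope ω 0 := ⟨_, rfl⟩
  have hφd : DifferentiableOn ℂ φ (ball 0 r) := by
    rw [hφ]
    exact (Complex.differentiableOn_dslope (ball_mem_nhds 0 hr0)).2 hω
  have hωφ : ∀ z, ω z = z * φ z := by
    intro z
    rcases eq_or_ne z 0 with rfl | hz
    · rw [hω0, zero_mul]
    · rw [hφ, dslope_of_ne _ hz, slope_def_field, hω0]
      field_simp
      ring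
  obtain ⟨z1, hz1, hmax, κ, hκ, he⟩ := jack hφd hz0n hz0
  have hz1r : z1 ∈ ball (0 : ℂ) r := by rw [mem_ball_zero_iff, hz1]; exact hz0
  have hz1D : z1 ∈ ball (0 : ℂ) 1 := ball_subset_ball hr1 hz1r
  have hz10 : z1 ≠ 0 := by
    intro h0; rw [h0, norm_zero] at hz1; linarith
  have h1 : 1 < ‖φ z1‖ := by
    have h2 := hmax z0 le_rfl
    have h3 : ‖ω z0‖ = ‖z0‖ * ‖φ z0‖ := by rw [hωφ z0, norm_mul]
    rw [h3] at hcon
    have h4 : 1 < ‖φ z0‖ := by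
      by_contra h5
      push Not at h5
      nlinarith
    linarith
  have hφ1 : φ z1 ≠ 0 := by
    intro h0; rw [h0, norm_zero] at h1; linarith
  -- κ' = z1 φ'(z1)/φ(z1)
  obtain ⟨k, hk⟩ : ∃ k : ℝ, k = κ / ‖φ z1‖ ^ 2 := ⟨_, rfl⟩
  have hk0 : 0 ≤ k := by rw [hk]; positivity
  have hn2 : ((‖φ z1‖ ^ 2 : ℝ) : ℂ) ≠ 0 := by
    have : (0 : ℝ) < ‖φ z1‖ ^ 2 := by positivity
    exact_mod_cast this.ne'
  have hkφ : z1 * deriv φ z1 = k * φ z1 := by
    have h4 : (starRingEnd ℂ) (φ z1) * φ z1 = ((‖φ z1‖ ^ 2 : ℝ) : ℂ) := by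
      rw [mul_comm, Complex.mul_conj, Complex.normSq_eq_norm_sq]
    have h5 : ((‖φ z1‖ ^ 2 : ℝ) : ℂ) * (z1 * deriv φ z1) = φ z1 * κ := by
      rw [← h4, ← he]; ring
    apply mul_left_cancel₀ hn2
    rw [h5, hk]
    push_cast
    push_cast at hn2
    rw [div_mul_eq_mul_div, mul_div_cancel₀ _ hn2, mul_comm]
  obtain ⟨ξ, hξ⟩ : ∃ ξ, ξ = ω z1 := ⟨_, rfl⟩
  have hξD : ξ ∈ ball (0 : ℂ) 1 := by rw [hξ]; exact hωm z1 hz1r
  have hξn : ‖z1‖ < ‖ξ‖ := by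
    rw [hξ, hωφ z1, norm_mul, hz1]
    nlinarith
  have hξ0 : ξ ≠ 0 := by
    intro h0
    rw [h0, norm_zero] at hξn
    exact absurd hξn (not_lt.2 (norm_nonneg _))
  -- derivative of ω at z1
  have hdω : HasDerivAt ω (φ z1 + z1 * deriv φ z1) z1 := by
    have h2 : HasDerivAt φ (deriv φ z1) z1 :=
      (hφd.differentiableAt (isOpen_ball.mem_nhds hz1r)).hasDerivAt
    have h3 := (hasDerivAt_id z1).mul h2
    have h4 : ω = fun z => z * φ z := funext hωφ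
    rw [h4]
    convert! h3 using 1
    simp
  have hdY : HasDerivAt Y (deriv Y ξ) (ω z1) := by
    rw [← hξ]
    exact (anal h.diff hξD).differentiableAt.hasDerivAt
  have hdy : deriv y z1 = deriv Y ξ * (φ z1 + z1 * deriv φ z1) := by
    have h2 := hdY.comp z1 hdω
    have h3 : y =ᶠ[nhds z1] (Y ∘ ω) := by
      filter_upwards [isOpen_ball.mem_nhds hz1r] with w hw
      exact (hωY w hw).symm
    rw [h3.deriv_eq, h2.deriv]
  have hzy : z1 * deriv y z1 = (1 + k) * (ξ * deriv Y ξ) := by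
    rw [hdy, hξ, hωφ z1]
    linear_combination (z1 * deriv Y (z1 * φ z1)) * hkφ
  have o1 := ode z1 hz1D
  rw [hzy, ← hωY z1 hz1r, ← hξ] at o1
  have o2 := h.ode ξ hξD
  have hYξ := h.ne hα hξD
  have hN := h.N_pos hα hξD
  -- X = k N(ξ)
  have hX : (p z1 - p0 ξ) * (1 - ξ) ^ 2 / (2 * ξ) =
      (k : ℂ) * (-(α / 2) * (1 - ξ) ^ 2 * (deriv Y ξ / Y ξ)) := by
    have h2 : (p z1 - p0 ξ) * Y ξ = - (α * k * (ξ * deriv Y ξ)) := by
      linear_combination o1 - o2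
    have h3 : p z1 - p0 ξ = - (α * k * (ξ * deriv Y ξ)) / Y ξ := by
      rw [← h2]; field_simp
    rw [h3]
    field_simp
  have hXre : 0 ≤ ((p z1 - p0 ξ) * (1 - ξ) ^ 2 / (2 * ξ)).re := by
    rw [hX, Complex.re_ofReal_mul]
    exact mul_nonneg hk0 hN.le
  obtain ⟨η, hη, hpη⟩ := schwarz_p hp hp0 hpos hz1D
  rw [hpη] at hXre
  have := neg_re hξD (lt_of_le_of_lt hη hξn)
  linarith

/-- The subordination `y = Y ∘ ω`. -/
theorem YData.sub (hα : 0 < α) (h : YData α Y) {y p : ℂ → ℂ}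
    (hy : DifferentiableOn ℂ y (ball 0 1)) (hy0 : y 0 = 1)
    (hp : DifferentiableOn ℂ p (ball 0 1)) (hp0 : p 0 = 1)
    (hpos : ∀ z ∈ ball (0 : ℂ) 1, 0 < (p z).re)
    (ode : ∀ z ∈ ball (0 : ℂ) 1, α * (z * deriv y z) + p z * y z = 1) :
    ∃ ω : ℂ → ℂ, DifferentiableOn ℂ ω (ball 0 1) ∧ (∀ z ∈ ball (0 : ℂ) 1, ‖ω z‖ ≤ ‖z‖) ∧
      ∀ z ∈ ball (0 : ℂ) 1, Y (ω z) = y z := by
  obtain ⟨g, hgl, hgd⟩ := h.exists_inverse hα
  obtain ⟨A, hA⟩ : ∃ A : Set ℂ, A = {z | z ∈ ball (0 : ℂ) 1 ∧ y z ∈ Y '' ball 0 1} := ⟨_, rfl⟩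
  have hYopen : IsOpen (Y '' ball 0 1) := by
    rw [isOpen_iff_mem_nhds]
    rintro w ⟨z, hz, rfl⟩
    have h1 : HasStrictDerivAt Y (deriv Y z) z := (anal h.diff hz).hasStrictDerivAt
    rw [← h1.map_nhds_eq (h.deriv_ne hα hz)]
    exact Filter.image_mem_map (isOpen_ball.mem_nhds hz)
  have hAopen : IsOpen A := by
    rw [hA]
    exact hy.continuousOn.isOpen_inter_preimage isOpen_ball hYopen
  have h0A : (0 : ℂ) ∈ A := by
    rw [hA]
    exact ⟨zero_mem, 0, zero_mem, by rw [hy0, h.zero]⟩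
  -- bound on balls contained in A
  have hball : ∀ r : ℝ, 0 < r → r ≤ 1 → ball (0 : ℂ) r ⊆ A →
      DifferentiableOn ℂ (fun z => g (y z)) (ball 0 r) ∧
      (∀ z ∈ ball (0 : ℂ) r, ‖g (y z)‖ ≤ ‖z‖) ∧ ∀ z ∈ ball (0 : ℂ) r, Y (g (y z)) = y z := by
    intro r hr0 hr1 hrA
    have hmem : ∀ z ∈ ball (0 : ℂ) r, g (y z) ∈ ball (0 : ℂ) 1 ∧ Y (g (y z)) = y z := by
      intro z hz
      have h1 := hrA hz
      rw [hA] at h1
      obtain ⟨_, v, hv, hvy⟩ := h1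
      rw [← hvy, hgl v hv]
      exact ⟨hv, rfl⟩
    have hd : DifferentiableOn ℂ (fun z => g (y z)) (ball 0 r) := by
      intro z hz
      have h1 := hrA hz
      rw [hA] at h1
      obtain ⟨hz1, v, hv, hvy⟩ := h1
      have h2 := hgd v hv
      rw [hvy] at h2
      have h3 : HasDerivAt y (deriv y z) z := (anal hy hz1).differentiableAt.hasDerivAt
      exact (h2.comp z h3).differentiableAt.differentiableWithinAt
    refine ⟨hd, ?_, fun z hz => (hmem z hz).2⟩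
    apply h.local_sub hα hp hp0 hpos ode hr0 hr1 hd
    · rw [hy0, ← h.zero]; exact hgl 0 zero_mem
    · exact fun z hz => (hmem z hz).1
    · exact fun z hz => (hmem z hz).2
  have hall : ball (0 : ℂ) 1 ⊆ A := by
    intro zb hzb
    by_contra hnot
    rw [mem_ball_zero_iff] at hzb
    have hK : IsCompact (closedBall (0 : ℂ) ‖zb‖ \ A) :=
      (isCompact_closedBall 0 ‖zb‖).diff hAopen
    have hne : (closedBall (0 : ℂ) ‖zb‖ \ A).Nonempty :=
      ⟨zb, by rw [mem_closedBall_zero_iff], hnot⟩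
    obtain ⟨zm, hzm, hmin⟩ := hK.exists_isMinOn hne continuous_norm.continuousOn
    have hzm1 : ‖zm‖ ≤ ‖zb‖ := by
      have := hzm.1
      rwa [mem_closedBall_zero_iff] at this
    have hzm0 : zm ≠ 0 := by
      intro h0
      rw [h0] at hzm
      exact hzm.2 h0A
    have hr0 : 0 < ‖zm‖ := norm_pos_iff.2 hzm0
    have hrA : ball (0 : ℂ) ‖zm‖ ⊆ A := by
      intro w hw
      rw [mem_ball_zero_iff] at hw
      by_contra hwA
      have : ‖zm‖ ≤ ‖w‖ := hmin ⟨by rw [mem_closedBall_zero_iff]; linarith, hwA⟩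
      linarith
    obtain ⟨_, hb2, hb3⟩ := hball ‖zm‖ hr0 (by linarith) hrA
    apply hzm.2
    rw [hA]
    have hzmD : zm ∈ ball (0 : ℂ) 1 := by rw [mem_ball_zero_iff]; linarith
    refine ⟨hzmD, ?_⟩
    have hsubD : closedBall (0 : ℂ) ‖zm‖ ⊆ ball 0 1 := closedBall_subset_ball (by linarith)
    have hcomp : IsCompact (Y '' closedBall 0 ‖zm‖) :=
      (isCompact_closedBall 0 ‖zm‖).image_of_continuousOn (h.diff.continuousOn.mono hsubD)
    have hmem : y zm ∈ Y '' closedBall 0 ‖zm‖ := by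
      have hcl := hcomp.isClosed
      have hlim : Filter.Tendsto (fun t : ℝ => y ((t : ℂ) * zm)) (nhdsWithin 1 (Set.Iio 1))
          (nhds (y zm)) := by
        have h1 : Filter.Tendsto (fun t : ℝ => (t : ℂ) * zm) (nhds 1) (nhds zm) := by
          have : Continuous (fun t : ℝ => (t : ℂ) * zm) := by fun_prop
          have h2 := this.tendsto 1
          simpa using h2
        have h2 : ContinuousAt y zm := (anal hy hzmD).continuousAt
        exact (h2.tendsto.comp h1).mono_left nhdsWithin_le_nhds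
      apply hcl.mem_of_tendsto hlim
      have h1 : Set.Ioo (0 : ℝ) 1 ∈ nhdsWithin (1 : ℝ) (Set.Iio 1) := Ioo_mem_nhdsLT one_pos
      filter_upwards [h1] with t ht
      have h2 : ‖(t : ℂ) * zm‖ < ‖zm‖ := by
        rw [norm_mul, Complex.norm_real, Real.norm_of_nonneg ht.1.le]
        nlinarith [ht.2]
      have h3 : (t : ℂ) * zm ∈ ball (0 : ℂ) ‖zm‖ := by rw [mem_ball_zero_iff]; exact h2
      refine ⟨g (y ((t : ℂ) * zm)), ?_, hb3 _ h3⟩
      rw [mem_closedBall_zero_iff]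
      exact (hb2 _ h3).trans h2.le
    obtain ⟨v, hv, hvy⟩ := hmem
    exact ⟨v, hsubD hv, hvy⟩
  obtain ⟨h1, h2, h3⟩ := hball 1 one_pos le_rfl hall
  exact ⟨fun z => g (y z), h1, h2, h3⟩

end

end Pool.Agent.Q139.Mal
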