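import Pool.Agent.Q139.Mal.Fej
import Pool.Agent.Q139.Mal.Sub

namespace Pool.Agent.Q139.Mal
open Pool.Agent.Q139.Baz Metric Finset PowerSeries

lemma dslope_eq (g : ℂ → ℂ) (z : ℂ) : g z = g 0 + z * dslope g 0 z := by
  rcases eq_or_ne z 0 with rfl | hz
  · simp
  · rw [dslope_of_ne _ hz, slope_def_field]
    field_simp
    ring

lemma dslope_diff {g : ℂ → ℂ} (hg : DifferentiableOn ℂ g (ball 0 1)) :
    DifferentiableOn ℂ (dslope g 0) (ball 0 1) :=
  (Complex.differentiableOn_dslope ball_nhds).2 hg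

lemma ts_dslope {g : ℂ → ℂ} (hg : DifferentiableOn ℂ g (ball 0 1)) :
    ts g = C (g 0) + X * ts (dslope g 0) := by
  have h1 : AnalyticAt ℂ (dslope g 0) 0 := anal (dslope_diff hg) zero_mem
  have h2 : AnalyticAt ℂ (fun z => z * dslope g 0 z) 0 := ana_id.mul h1
  rw [← ts_const, ← ts_id, ← ts_mul ana_id h1, ← ts_add analyticAt_const h2]
  congr 1
  funext z
  exact dslope_eq g z

lemma tc_dslope {g : ℂ → ℂ} (hg : DifferentiableOn ℂ g (ball 0 1)) (k : ℕ) :
    tc (dslope g 0) k = tc g (k + 1) := by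
  have h := congrArg (coeff (k+1)) (ts_dslope hg)
  rw [coeff_ts, map_add, coeff_succ_X_mul, coeff_ts, coeff_C, if_neg (by omega), zero_add] at h
  exact h.symm

/-- expansion of a composition -/
theorem comp_expand {ω : ℂ → ℂ} (hω : DifferentiableOn ℂ ω (ball 0 1))
    (hωm : ∀ z ∈ ball (0 : ℂ) 1, ω z ∈ ball (0 : ℂ) 1) (K : ℕ) :
    ∀ g : ℂ → ℂ, DifferentiableOn ℂ g (ball 0 1) → ∃ R : PowerSeries ℂ,
      ts (fun z => g (ω z)) = ∑ k ∈ range K, C (tc g k) * (ts ω) ^ k + (ts ω) ^ K * R := by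
  induction K with
  | zero =>
    intro g _
    exact ⟨ts (fun z => g (ω z)), by simp⟩
  | succ K ih =>
    intro g hg
    obtain ⟨R, hR⟩ := ih (dslope g 0) (dslope_diff hg)
    refine ⟨R, ?_⟩
    have hgω : DifferentiableOn ℂ (fun z => dslope g 0 (ω z)) (ball 0 1) :=
      (dslope_diff hg).comp hω hωm
    have h1 : AnalyticAt ℂ (fun z => dslope g 0 (ω z)) 0 := anal hgω zero_mem
    have h2 : AnalyticAt ℂ ω 0 := anal hω zero_mem
    have h3 : AnalyticAt ℂ (fun z => ω z * dslope g 0 (ω z)) 0 := h2.mul h1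
    have h4 : ts (fun z => g (ω z)) = C (g 0) + ts ω * ts (fun z => dslope g 0 (ω z)) := by
      rw [← ts_const, ← ts_mul h2 h1, ← ts_add analyticAt_const h3]
      congr 1
      funext z
      exact dslope_eq g (ω z)
    rw [h4, hR, Finset.sum_range_succ', tc_zero, pow_zero, mul_one, mul_add, Finset.mul_sum]
    have h5 : ∀ k ∈ range K, ts ω * (C (tc (dslope g 0) k) * ts ω ^ k) =
        C (tc g (k+1)) * ts ω ^ (k+1) := by
      intro k _
      rw [tc_dslope hg, pow_succ]; ring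
    rw [Finset.sum_congr rfl h5, pow_succ]
    ring

lemma ts_pow {f : ℂ → ℂ} (hf : AnalyticAt ℂ f 0) (k : ℕ) :
    ts (fun z => f z ^ k) = (ts f) ^ k := by
  induction k with
  | zero => simp only [pow_zero]; rw [ts_const, map_one]
  | succ k ih =>
    have hfk : AnalyticAt ℂ (fun z => f z ^ k) 0 := hf.pow k
    simp only [pow_succ]
    rw [ts_mul hfk hf, ih]

/-- the composition bound -/
theorem comp_bound {B : PowerSeries ℂ} (hB : ∀ a, ‖coeff a B‖ ≤ 1) {ω g : ℂ → ℂ}
    (hω : DifferentiableOn ℂ ω (ball 0 1)) (hωs : ∀ z ∈ ball (0 : ℂ) 1, ‖ω z‖ ≤ ‖z‖)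
    (hg : DifferentiableOn ℂ g (ball 0 1)) {b : ℕ → ℝ} (hb : ∀ k, 0 ≤ b k)
    (hgb : ∀ k, tc g k = ((b k : ℝ) : ℂ)) (m : ℕ) :
    ‖coeff m (B * B * ts (fun z => g (ω z)))‖ ≤
      ∑ k ∈ range (m + 1), b k * (((m - k : ℕ) : ℝ) + 1) := by
  have hω0 : ω 0 = 0 := by
    have := hωs 0 zero_mem
    rw [norm_zero] at this
    exact norm_eq_zero.1 (le_antisymm this (norm_nonneg _))
  have hωm : ∀ z ∈ ball (0 : ℂ) 1, ω z ∈ ball (0 : ℂ) 1 := by
    intro z hz
    rw [mem_ball_zero_iff] at hz ⊢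
    exact lt_of_le_of_lt (hωs z (by rwa [mem_ball_zero_iff])) hz
  obtain ⟨φ, hφ⟩ : ∃ φ, φ = dslope ω 0 := ⟨_, rfl⟩
  have hφd : DifferentiableOn ℂ φ (ball 0 1) := by rw [hφ]; exact dslope_diff hω
  have hφ1' : ∀ z ∈ ball (0 : ℂ) 1, z ≠ 0 → ‖φ z‖ ≤ 1 := by
    intro z hz hz0
    have h1 : ‖z‖ * ‖φ z‖ = ‖ω z‖ := by
      rw [← norm_mul, hφ]
      congr 1
      have := dslope_eq ω z
      rw [hω0, zero_add] at this
      exact this.symm
    have h2 := hωs z hz
    rw [← h1] at h2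
    have h3 : 0 < ‖z‖ := norm_pos_iff.2 hz0
    exact le_of_mul_le_mul_left (by rw [mul_one]; exact h2) h3
  have hφ1 : ∀ z ∈ ball (0 : ℂ) 1, ‖φ z‖ ≤ 1 := by
    intro z hz
    rcases eq_or_ne z 0 with rfl | hz0
    · have hc : Filter.Tendsto (fun z => ‖φ z‖) (nhdsWithin 0 {0}ᶜ) (nhds ‖φ 0‖) :=
        ((anal hφd zero_mem).continuousAt.tendsto.norm).mono_left nhdsWithin_le_nhds
      apply le_of_tendsto hc
      filter_upwards [self_mem_nhdsWithin, nhdsWithin_le_nhds ball_nhds] with w hw hw2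
      exact hφ1' w hw2 hw
    · exact hφ1' z hz hz0
  have hΩ : ts ω = X * ts φ := by
    rw [ts_dslope hω, hω0, map_zero, zero_add, hφ]
  obtain ⟨R, hR⟩ := comp_expand hω hωm (m + 1) g hg
  have hφa : AnalyticAt ℂ φ 0 := anal hφd zero_mem
  rw [hR, mul_add, map_add]
  have hrem : coeff m (B * B * (ts ω ^ (m + 1) * R)) = 0 := by
    rw [hΩ, mul_pow, show B * B * (X ^ (m+1) * ts φ ^ (m+1) * R) =
      X ^ (m+1) * (B * B * ts φ ^ (m+1) * R) by ring, coeff_X_pow_mul', if_neg (by omega)]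
  rw [hrem, add_zero, Finset.mul_sum, map_sum]
  refine (norm_sum_le _ _).trans ?_
  apply Finset.sum_le_sum
  intro k hk
  rw [mem_range] at hk
  have h1 : B * B * (C (tc g k) * ts ω ^ k) = C (tc g k) * (X ^ k * (B * B * ts (fun z => φ z ^ k))) := by
    rw [ts_pow hφa, hΩ, mul_pow]; ring
  rw [h1, coeff_C_mul, coeff_X_pow_mul', if_pos (by omega), norm_mul, hgb, Complex.norm_real,
    Real.norm_of_nonneg (hb k)]
  apply mul_le_mul_of_nonneg_left _ (hb k)
  apply toeplitz hB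
  · exact hφd.pow k
  · intro z hz
    rw [norm_pow]
    exact pow_le_one₀ (norm_nonneg _) (hφ1 z hz)

/-- analytic powers and formal powers -/
lemma ts_cpow {q : ℂ → ℂ} (hq : DifferentiableOn ℂ q (ball 0 1)) (q0 : q 0 = 1)
    (hpos : ∀ z ∈ ball (0 : ℂ) 1, 0 < (q z).re) (c : ℂ) :
    ts (fun z => Complex.exp (c * Complex.log (q z))) = pw c (ts q) := by
  have hne : ∀ z ∈ ball (0 : ℂ) 1, q z ≠ 0 := by
    intro z hz h0
    have := hpos z hz
    rw [h0] at this; simp at this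
  have hc0 : constantCoeff (ts q) = 1 := by rw [constantCoeff_ts, q0]
  have hL : DifferentiableOn ℂ (fun z => Complex.log (q z)) (ball 0 1) :=
    hq.clog (fun z hz => Or.inl (hpos z hz))
  have hE : DifferentiableOn ℂ (fun z => Complex.exp (c * Complex.log (q z))) (ball 0 1) :=
    (hL.const_mul c).cexp
  have hqa := anal hq zero_mem
  have hEa := anal hE zero_mem
  refine IsPow.unique hc0 ⟨?_, ?_⟩ (isPow_pw _ hc0)
  · rw [constantCoeff_ts, q0]; simp
  · have hzE : AnalyticAt ℂ (fun z : ℂ => z * deriv (fun w => Complex.exp (c * Complex.log (q w))) z)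
        0 := analyticAt_id.mul hEa.deriv
    have hzq : AnalyticAt ℂ (fun z : ℂ => z * deriv q z) 0 := analyticAt_id.mul hqa.deriv
    have hm : AnalyticAt ℂ (fun z : ℂ => Complex.exp (c * Complex.log (q z)) *
        (z * deriv q z)) 0 := hEa.mul hzq
    rw [D_ts hEa, D_ts hqa, ← ts_mul hqa hzE, ← ts_mul hEa hzq, ← ts_const_mul hm]
    apply ts_congr
    filter_upwards [ball_nhds] with z hz
    have h1 : HasDerivAt q (deriv q z) z := (anal hq hz).differentiableAt.hasDerivAt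
    have h2 := ((h1.clog (Or.inl (hpos z hz))).const_mul c).cexp
    rw [h2.deriv]
    have := hne z hz
    field_simp

/-- Caratheodory -/
lemma caratheodory {p : ℂ → ℂ} (hp : DifferentiableOn ℂ p (ball 0 1)) (hp0 : p 0 = 1)
    (hpos : ∀ z ∈ ball (0 : ℂ) 1, 0 < (p z).re) {k : ℕ} (hk : 1 ≤ k) : ‖tc p k‖ ≤ 2 := by
  have key : ∀ R : ℝ, 0 < R → R < 1 → R ^ k * ‖tc p k‖ ≤ 2 := by
    intro R hR0 hR1
    obtain ⟨N, μ, ζ, hA, hmom⟩ := exists_atoms hp hp0 hpos hR0 hR1 k
    have h1 := hmom k hk le_rfl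
    have h2 : ‖∑ i, (μ i : ℂ) * ζ i ^ k‖ ≤ 1 := by
      refine (norm_sum_le _ _).trans ?_
      calc ∑ i, ‖(μ i : ℂ) * ζ i ^ k‖ = ∑ i, μ i := by
            apply Finset.sum_congr rfl
            intro i _
            rw [norm_mul, norm_pow, hA.norm i, one_pow, mul_one, Complex.norm_real,
              Real.norm_of_nonneg (hA.nonneg i)]
        _ ≤ 1 := by rw [hA.sum]
    rw [h1, norm_div, norm_mul, norm_pow, Complex.norm_real, Real.norm_of_nonneg hR0.le] at h2
    have h3 : ‖(2 : ℂ)‖ = 2 := by simp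
    rw [h3, div_le_one (by norm_num)] at h2
    linarith
  have hlim : Filter.Tendsto (fun R : ℝ => R ^ k * ‖tc p k‖)
      (nhdsWithin 1 (Set.Iio 1)) (nhds (1 ^ k * ‖tc p k‖)) := by
    apply Filter.Tendsto.mono_left _ nhdsWithin_le_nhds
    exact ((continuous_pow k).mul continuous_const).tendsto 1
  rw [one_pow, one_mul] at hlim
  apply le_of_tendsto hlim
  have h1 : Set.Ioo (0 : ℝ) 1 ∈ nhdsWithin (1 : ℝ) (Set.Iio 1) := Ioo_mem_nhdsLT one_pos
  filter_upwards [h1] with R hR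
  exact key R hR.1 hR.2

/-- the square root series -/
lemma sqrt_series {W P : PowerSeries ℂ} (hW0 : constantCoeff W = 1)
    (hP0 : constantCoeff P = 1) (hP : ∀ k, 1 ≤ k → ‖coeff k P‖ ≤ 2) (hD : D W = W * (P - 1)) :
    ∃ B : PowerSeries ℂ, (∀ a, ‖coeff a B‖ ≤ 1) ∧ B * B = W := by
  have hB := isPow_pw (1 / 2 : ℂ) hW0
  have hBB : pw (1 / 2 : ℂ) W * pw (1 / 2 : ℂ) W = W := by
    rw [← pw_add _ _ hW0]
    norm_num
    exact pw_one hW0
  obtain ⟨B, hBd⟩ : ∃ B, B = pw (1 / 2 : ℂ) W := ⟨_, rfl⟩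
  rw [← hBd] at hB hBB
  refine ⟨B, ?_, hBB⟩
  have hW1 : W ≠ 0 := by
    intro h; rw [h] at hW0; simp at hW0
  have hDB : D B = C (1/2) * (B * (P - 1)) := by
    apply mul_left_cancel₀ hW1
    rw [hB.2, hD]; ring
  have hB0 : coeff 0 B = 1 := by rw [coeff_zero_eq_constantCoeff_apply, hB.1]
  intro a
  induction a using Nat.strong_induction_on with
  | _ a ih =>
    rcases Nat.eq_zero_or_pos a with rfl | ha
    · rw [hB0, norm_one]
    · have h1 := congrArg (coeff a) hDB
      rw [coeff_D, coeff_C_mul, coeff_mul,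
        Finset.Nat.sum_antidiagonal_eq_sum_range_succ (fun i j => coeff i B * coeff j (P - 1)) a,
        Finset.sum_range_succ, Nat.sub_self] at h1
      have h2 : coeff 0 (P - 1) = 0 := by
        rw [coeff_zero_eq_constantCoeff_apply, map_sub, hP0, map_one, sub_self]
      rw [h2, mul_zero, add_zero] at h1
      have h3 : ‖(a : ℂ) * coeff a B‖ ≤ a := by
        rw [h1, norm_mul]
        have h4 : ‖∑ i ∈ range a, coeff i B * coeff (a - i) (P - 1)‖ ≤ 2 * a := by
          refine (norm_sum_le _ _).trans ?_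
          calc ∑ i ∈ range a, ‖coeff i B * coeff (a - i) (P - 1)‖ ≤ ∑ i ∈ range a, (2 : ℝ) := by
                apply Finset.sum_le_sum
                intro i hi
                rw [mem_range] at hi
                rw [norm_mul]
                have h5 : coeff (a - i) (P - 1) = coeff (a - i) P := by
                  rw [map_sub, coeff_one, if_neg (by omega), sub_zero]
                rw [h5]
                have h6 := ih i hi
                have h7 := hP (a - i) (by omega)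
                calc _ ≤ 1 * 2 := mul_le_mul h6 h7 (norm_nonneg _) zero_le_one
                  _ = 2 := by norm_num
            _ = 2 * a := by simp; ring
        have h5 : ‖(1 / 2 : ℂ)‖ = 1 / 2 := by simp
        rw [h5]
        linarith
      rw [norm_mul, Complex.norm_natCast] at h3
      have ha' : (0 : ℝ) < a := by exact_mod_cast ha
      exact le_of_mul_le_mul_left (by rw [mul_one]; exact h3) ha'

end Pool.Agent.Q139.Mal
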