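import Pool.Agent.Q139.Mal.Bound

namespace Pool.Agent.Q139.Mal
open Pool.Agent.Q139.Baz Metric Finset PowerSeries

/-- Taylor coefficients of `Y(z)/(1-z)`. -/
noncomputable def fc (α : ℝ) : ℕ → ℝ
  | 0 => 1
  | (k+1) => fc α k * (α * (k+1) - 1) / (α * (k+1) + 1)

/-- the Taylor series of `Y`. -/
noncomputable def Yr (α : ℝ) : PowerSeries ℝ := (1 - X) * PowerSeries.mk (fc α)

lemma fc_le {α : ℝ} (hα : 0 < α) (k : ℕ) : |fc α k| ≤ 1 := by
  induction k with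
  | zero => simp [fc]
  | succ k ih =>
    have hk : (0 : ℝ) ≤ k := Nat.cast_nonneg k
    have h1 : (0 : ℝ) < α * (k+1) := by positivity
    have h2 : (0 : ℝ) < α * (k+1) + 1 := by positivity
    rw [show fc α (k+1) = fc α k * ((α * (k+1) - 1) / (α * (k+1) + 1)) by rw [fc]; ring, abs_mul]
    have h3 : |(α * (k+1) - 1) / (α * (k+1) + 1)| ≤ 1 := by
      rw [abs_div, abs_of_pos h2, div_le_one h2, abs_le]
      constructor <;> linarith
    calc _ ≤ 1 * 1 := mul_le_mul ih h3 (abs_nonneg _) zero_le_one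
      _ = 1 := by norm_num

lemma D_X' (K : Type*) [Field K] : D (X : PowerSeries K) = X := by
  ext n
  rw [coeff_D, coeff_X]
  split_ifs with h
  · rw [h]; simp
  · simp

lemma two_eq : (2 : PowerSeries ℝ) = C 2 := (map_ofNat C 2).symm

lemma Yr_ode {α : ℝ} (hα : 0 < α) : C α * D (Yr α) + (2 * Ks ℝ - 1) * Yr α = 1 := by
  obtain ⟨F, hF⟩ : ∃ F : PowerSeries ℝ, F = PowerSeries.mk (fc α) := ⟨_, rfl⟩
  have hK := Ks_mul ℝ
  have e1 : C α * (-(X * F) + (D F - X * D F)) + (F + X * F) = 1 := by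
    ext n
    cases n with
    | zero =>
      simp only [map_add, map_neg, map_sub, coeff_C_mul, coeff_zero_X_mul, coeff_D]
      rw [hF, coeff_mk]
      simp [fc]
    | succ n =>
      simp only [map_add, map_neg, map_sub, coeff_C_mul, coeff_succ_X_mul, coeff_D]
      rw [hF, coeff_mk, coeff_mk, coeff_one, if_neg (by omega),
        show fc α (n+1) = fc α n * (α * (n+1) - 1) / (α * (n+1) + 1) from rfl]
      have h2 : α * ((n : ℝ)+1) + 1 ≠ 0 := by positivity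
      push_cast
      field_simp
      ring
  have e2 : D (Yr α) = -(X * F) + (D F - X * D F) := by
    rw [Yr, D_mul, D_sub, D_one, D_X', ← hF]; ring
  rw [e2]
  have e3 : (2 * Ks ℝ - 1) * Yr α = F + X * F := by
    rw [Yr, ← hF]
    linear_combination (2 * F) * hK
  rw [e3]
  exact e1

lemma Yr0 (α : ℝ) : constantCoeff (Yr α) = 1 := by
  rw [Yr, map_mul]
  have : constantCoeff (PowerSeries.mk (fc α)) = 1 := by
    rw [← coeff_zero_eq_constantCoeff_apply, coeff_mk]; rfl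
  rw [this]; simp

lemma cx_X : cx X = (X : PowerSeries ℂ) := by simp [cx]

lemma cx_Ks : cx (Ks ℝ) = Ks ℂ := by
  ext n
  rw [coeff_cx, Ks, Ks, coeff_mk, coeff_mk]; simp

theorem exists_Y {α : ℝ} (hα : 0 < α) : ∃ Y : ℂ → ℂ, YData α Y ∧ ts Y = cx (Yr α) := by
  obtain ⟨F, hFd, hFc⟩ := exists_analytic (fun n => ((fc α n : ℝ) : ℂ)) (by
    intro n
    rw [Complex.norm_real, Real.norm_eq_abs]
    have := fc_le hα n
    linarith)
  have hFts : ts F = cx (PowerSeries.mk (fc α)) := by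
    ext n
    rw [coeff_ts, hFc, coeff_cx, coeff_mk]
  obtain ⟨Y, hY⟩ : ∃ Y : ℂ → ℂ, Y = fun z => (1 + (-1) * z) * F z := ⟨_, rfl⟩
  have hYd : DifferentiableOn ℂ Y (ball 0 1) := by
    rw [hY]
    have h1 : DifferentiableOn ℂ (fun z : ℂ => (1 + (-1) * z)) (ball 0 1) := by fun_prop
    exact h1.mul hFd
  have hYts : ts Y = cx (Yr α) := by
    have hFa : AnalyticAt ℂ F 0 := anal hFd zero_mem
    have hm : AnalyticAt ℂ (fun z : ℂ => (-1 : ℂ) * z) 0 := by fun_prop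
    have h1 : AnalyticAt ℂ (fun z : ℂ => (1 : ℂ) + (-1) * z) 0 := by fun_prop
    have e1 : ts (fun z : ℂ => (1 : ℂ) + (-1) * z) = 1 - X := by
      rw [ts_add analyticAt_const hm, ts_const_mul ana_id, ts_id, ts_const, map_neg, map_one]
      ring
    rw [hY, ts_mul h1 hFa, e1, hFts, Yr, map_mul, map_sub, map_one, cx_X]
  have hY0 : Y 0 = 1 := by
    rw [← constantCoeff_ts Y, hYts, constantCoeff_cx, Yr0]; simp
  refine ⟨Y, ⟨hYd, hY0, ?_⟩, hYts⟩
  have hYa : AnalyticAt ℂ Y 0 := anal hYd zero_mem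
  have hpa : AnalyticAt ℂ p0 0 := anal p0_diff zero_mem
  have hzY : AnalyticAt ℂ (fun z : ℂ => z * deriv Y z) 0 := analyticAt_id.mul hYa.deriv
  have hd : DifferentiableOn ℂ (fun z => α * (z * deriv Y z) + p0 z * Y z) (ball 0 1) :=
    ((differentiableOn_id.mul (hYd.deriv isOpen_ball)).const_mul _).add (p0_diff.mul hYd)
  have h1 : ts (fun z => α * (z * deriv Y z) + p0 z * Y z) = ts (fun _ : ℂ => (1 : ℂ)) := by
    have a1 : AnalyticAt ℂ (fun z : ℂ => α * (z * deriv Y z)) 0 := analyticAt_const.mul hzY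
    have a2 : AnalyticAt ℂ (fun z : ℂ => p0 z * Y z) 0 := hpa.mul hYa
    rw [ts_add a1 a2, ts_const_mul hzY, ← D_ts hYa, ts_mul hpa hYa, ts_p0, hYts, D_cx, ts_const,
      map_one]
    have h2 := congrArg cx (Yr_ode hα)
    rw [map_add, map_mul, map_mul, map_sub, map_mul, cx_C, cx_Ks, map_one, map_ofNat] at h2
    exact h2
  exact ts_inj hd (differentiableOn_const _) h1

/-- the Taylor series of `q₀`. -/
noncomputable def Qr (α : ℝ) : PowerSeries ℝ := (Yr α)⁻¹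

lemma YQ (α : ℝ) : Yr α * Qr α = 1 :=
  PowerSeries.mul_inv_cancel _ (by rw [Yr0]; exact one_ne_zero)

lemma Qr0 (α : ℝ) : constantCoeff (Qr α) = 1 := by
  have := congrArg constantCoeff (YQ α)
  rw [map_mul, Yr0, one_mul, map_one] at this
  exact this

lemma ts_Yinv {α : ℝ} (hα : 0 < α) {Y : ℂ → ℂ} (hY : YData α Y) (hYts : ts Y = cx (Yr α)) :
    ts (fun z => (Y z)⁻¹) = cx (Qr α) := by
  have hYa : AnalyticAt ℂ Y 0 := anal hY.diff zero_mem
  have hYi : AnalyticAt ℂ (fun z => (Y z)⁻¹) 0 := anal (hY.qdiff hα) zero_mem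
  have h1 : ts Y * ts (fun z => (Y z)⁻¹) = 1 := by
    rw [← ts_mul hYa hYi, ← map_one C, ← ts_const]
    apply ts_congr
    filter_upwards [ball_nhds] with z hz
    exact mul_inv_cancel₀ (hY.ne hα hz)
  have h2 := congrArg cx (YQ α)
  rw [map_mul, map_one, ← hYts] at h2
  linear_combination (-ts (fun z => (Y z)⁻¹)) * h2 + cx (Qr α) * h1

/-- `α z q₀' = q₀ (p₀ - q₀)` -/
lemma Qr_ode {α : ℝ} (hα : 0 < α) : C α * D (Qr α) = Qr α * ((2 * Ks ℝ - 1) - Qr α) := by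
  have h1 := Yr_ode hα
  have h2 := YQ α
  have h3 : D (Yr α) * Qr α + Yr α * D (Qr α) = 0 := by
    rw [← D_mul, h2, D_one]
  linear_combination (C α * Qr α) * h3 - (Qr α * Qr α) * h1
    + (Qr α * (2 * Ks ℝ - 1) - C α * D (Qr α)) * h2

lemma Qr_le {α : ℝ} (hα : 0 < α) {k : ℕ} (hk : 1 ≤ k) : coeff k (Qr α) ≤ 2 := by
  obtain ⟨Y, hY, hYts⟩ := exists_Y hα
  have h1 := caratheodory (hY.qdiff hα) (by rw [hY.zero, inv_one])
    (fun z hz => inv_re_pos (hY.re hα hz)) hk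
  rw [← coeff_ts, ts_Yinv hα hY hYts, coeff_cx, Complex.norm_real, Real.norm_eq_abs] at h1
  exact (le_abs_self _).trans h1

lemma pw_Qr_nn {α γ : ℝ} (hα : 0 < α) (hγ : 0 ≤ γ) : NN (pw γ (Qr α)) := by
  have hM := isPow_pw γ (Qr0 α)
  have hQ1 : Qr α ≠ 0 := by
    intro h
    have := Qr0 α
    rw [h] at this; simp at this
  have hαC : C (1 / α) * C α = (1 : PowerSeries ℝ) := by
    rw [← map_mul, one_div, inv_mul_cancel₀ hα.ne', map_one]
  have hD : D (pw γ (Qr α)) = pw γ (Qr α) * (C (γ / α) * ((2 * Ks ℝ - 1) - Qr α)) := by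
    apply mul_left_cancel₀ hQ1
    have h2 : C (γ / α) = C γ * C (1 / α) := by rw [← map_mul]; congr 1; ring
    rw [hM.2, h2]
    linear_combination (C γ * C (1 / α) * pw γ (Qr α)) * Qr_ode hα
      - C γ * pw γ (Qr α) * D (Qr α) * hαC
  refine NN_of_D hM.1 ((NN_C (by positivity)).mul ?_) ?_ hD
  · intro n
    rw [map_sub]
    rcases Nat.eq_zero_or_pos n with rfl | hn
    · rw [coeff_zero_eq_constantCoeff_apply, coeff_zero_eq_constantCoeff_apply, Qr0, two_eq]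
      rw [map_sub, map_mul, constantCoeff_C, map_one]
      have : constantCoeff (Ks ℝ) = 1 := by
        rw [← coeff_zero_eq_constantCoeff_apply, Ks, coeff_mk]
      rw [this]; norm_num
    · rw [two_eq, map_sub, coeff_one, if_neg (by omega), coeff_C_mul, Ks, coeff_mk]
      have := Qr_le hα hn
      linarith
  · rw [map_mul, map_sub, Qr0, two_eq, map_sub, map_mul, constantCoeff_C, map_one]
    have : constantCoeff (Ks ℝ) = 1 := by
      rw [← coeff_zero_eq_constantCoeff_apply, Ks, coeff_mk]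
    rw [this]; norm_num

/-! ### explicit coefficients -/

/-- `h_k = (2/α)_k / k! / (1 + α k)`. -/
noncomputable def hc (α : ℝ) (k : ℕ) : ℝ :=
  (∏ j ∈ range k, (2 / α + j) / (j + 1)) / (1 + α * k)

lemma D_Ks : D (Ks ℝ) = X * Ks ℝ * Ks ℝ := by
  have hK := Ks_mul ℝ
  have h1 := congrArg D hK
  rw [D_mul, D_sub, D_one, D_X'] at h1
  linear_combination Ks ℝ * h1 - (D (Ks ℝ)) * hK

lemma Ks0 : constantCoeff (Ks ℝ) = 1 := by
  rw [← coeff_zero_eq_constantCoeff_apply, Ks, coeff_mk]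

lemma coeff_pw_Ks (c : ℝ) (k : ℕ) : coeff k (pw c (Ks ℝ)) = ∏ j ∈ range k, (c + j) / (j + 1) := by
  have hQ := isPow_pw c Ks0
  have hK := Ks_mul ℝ
  have h1 : D (pw c (Ks ℝ)) - X * D (pw c (Ks ℝ)) = C c * (X * pw c (Ks ℝ)) := by
    have h2 := hQ.2
    rw [D_Ks] at h2
    linear_combination (1 - X) * (1 - X) * h2 + (- (D (pw c (Ks ℝ))) * (1 - X)
      + C c * pw c (Ks ℝ) * X * (Ks ℝ * (1 - X) + 1)) * hK
  induction k with
  | zero => rw [coeff_zero_eq_constantCoeff_apply, hQ.1]; simp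
  | succ k ih =>
    have h2 := congrArg (coeff (k+1)) h1
    rw [map_sub, coeff_C_mul, coeff_succ_X_mul, coeff_succ_X_mul, coeff_D, coeff_D] at h2
    rw [Finset.prod_range_succ, ← ih]
    have hk : ((k : ℝ) + 1) ≠ 0 := by positivity
    field_simp
    push_cast at h2
    linear_combination h2

lemma pw_pw (a b : ℝ) {H : PowerSeries ℝ} (hH : constantCoeff H = 1) :
    pw a (pw b H) = pw (a * b) H := by
  have hG := isPow_pw b hH
  have hP := isPow_pw a hG.1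
  refine IsPow.unique hH ⟨hP.1, ?_⟩ (isPow_pw _ hH)
  have hG1 : pw b H ≠ 0 := by
    intro h
    have := hG.1
    rw [h] at this; simp at this
  apply mul_left_cancel₀ hG1
  rw [map_mul]
  linear_combination H * hP.2 + C a * pw a (pw b H) * hG.2

/-- `w₀ = (∑ h_k z^k)^α`. -/
noncomputable def wr (α : ℝ) : PowerSeries ℝ := pw α (PowerSeries.mk (hc α))

lemma hc0 (α : ℝ) : constantCoeff (PowerSeries.mk (hc α)) = 1 := by
  rw [← coeff_zero_eq_constantCoeff_apply, coeff_mk, hc]; simp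

lemma H_eq {α : ℝ} (hα : 0 < α) : PowerSeries.mk (hc α) = pw (2 / α) (Ks ℝ) * Yr α := by
  have hQ := isPow_pw (2 / α) Ks0
  have hK := Ks_mul ℝ
  have hK1 : Ks ℝ ≠ 0 := by
    intro h
    have := Ks0
    rw [h] at this; simp at this
  have hDQ : D (pw (2 / α) (Ks ℝ)) = C (2 / α) * (pw (2 / α) (Ks ℝ) * (X * Ks ℝ)) := by
    apply mul_left_cancel₀ hK1
    rw [hQ.2, D_Ks]; ring
  have hαC : C α * C (2 / α) = (2 : PowerSeries ℝ) := by
    rw [two_eq, ← map_mul, mul_div_cancel₀ _ hα.ne']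
  have h1 : pw (2 / α) (Ks ℝ) * Yr α + C α * D (pw (2 / α) (Ks ℝ) * Yr α) =
      pw (2 / α) (Ks ℝ) := by
    rw [D_mul, hDQ]
    linear_combination (pw (2 / α) (Ks ℝ)) * Yr_ode hα +
      (pw (2 / α) (Ks ℝ) * X * Ks ℝ * Yr α) * hαC - 2 * (pw (2 / α) (Ks ℝ) * Yr α) * hK
  ext k
  have h2 := congrArg (coeff k) h1
  rw [map_add, coeff_C_mul, coeff_D, coeff_pw_Ks] at h2
  rw [coeff_mk, hc, ← h2]
  have hk : 1 + α * (k : ℝ) ≠ 0 := by positivity
  field_simp

lemma wr_eq {α : ℝ} (hα : 0 < α) : wr α = Ks ℝ * Ks ℝ * pw α (Yr α) := by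
  have hQ0 : constantCoeff (pw (2 / α) (Ks ℝ)) = 1 := (isPow_pw (2 / α) Ks0).1
  rw [wr, H_eq hα, pw_mul α hQ0 (Yr0 α), pw_pw _ _ Ks0, mul_div_cancel₀ _ hα.ne',
    show (2 : ℝ) = 1 + 1 by norm_num, pw_add _ _ Ks0, pw_one Ks0]

lemma wr0 (α : ℝ) : constantCoeff (wr α) = 1 := (isPow_pw α (hc0 α)).1

/-- `z w₀' = w₀ (q₀ - 1)`. -/
lemma D_wr {α : ℝ} (hα : 0 < α) : D (wr α) = wr α * (Qr α - 1) := by
  have hK := Ks_mul ℝ
  have hP := isPow_pw α (Yr0 α)
  have hYQ := YQ α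
  have hDP : D (pw α (Yr α)) = pw α (Yr α) * (Qr α - (2 * Ks ℝ - 1)) := by
    linear_combination Qr α * hP.2 + (pw α (Yr α) * Qr α) * Yr_ode hα +
      (- D (pw α (Yr α)) - pw α (Yr α) * (2 * Ks ℝ - 1)) * hYQ
  rw [wr_eq hα, D_mul, D_mul, D_Ks, hDP]
  linear_combination (-2 * pw α (Yr α) * Ks ℝ * Ks ℝ) * hK

/-- `(1+D) w₀ = K² q₀^(1-α)`. -/
lemma wr_link {α : ℝ} (hα : 0 < α) : wr α + D (wr α) =
    pw (1 - α) (Qr α) * (Ks ℝ * Ks ℝ) := by
  have h1 : Qr α = pw (1 - α) (Qr α) * pw α (Qr α) := by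
    rw [← pw_add _ _ (Qr0 α), sub_add_cancel, pw_one (Qr0 α)]
  have h2 : pw α (Yr α) * pw α (Qr α) = 1 := by
    rw [← pw_mul α (Yr0 α) (Qr0 α), YQ]
    have h3 : constantCoeff (1 : PowerSeries ℝ) = 1 := map_one _
    refine IsPow.unique h3 (isPow_pw _ h3) ⟨h3, ?_⟩
    rw [D_one]; ring
  have h3 : wr α + D (wr α) = wr α * Qr α := by rw [D_wr hα]; ring
  rw [h3, wr_eq hα]
  linear_combination (Ks ℝ * Ks ℝ * pw α (Yr α)) * h1 + (Ks ℝ * Ks ℝ * pw (1 - α) (Qr α)) * h2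

lemma coeff_KK (n : ℕ) : coeff n (Ks ℝ * Ks ℝ) = (n : ℝ) + 1 := by
  rw [coeff_mul, Finset.Nat.sum_antidiagonal_eq_sum_range_succ
    (fun i j => coeff i (Ks ℝ) * coeff j (Ks ℝ)) n]
  simp [Ks]

lemma bound_eq {α : ℝ} (hα : 0 < α) (m : ℕ) :
    ∑ k ∈ range (m + 1), coeff k (pw (1 - α) (Qr α)) * (((m - k : ℕ) : ℝ) + 1) =
      ((m : ℝ) + 1) * coeff m (wr α) := by
  have h1 := congrArg (coeff m) (wr_link hα)
  rw [map_add, coeff_D, coeff_mul, Finset.Nat.sum_antidiagonal_eq_sum_range_succ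
    (fun i j => coeff i (pw (1 - α) (Qr α)) * coeff j (Ks ℝ * Ks ℝ)) m] at h1
  simp only [coeff_KK] at h1
  rw [← h1]; ring

/-- the recursion for the coefficients of `w₀`. -/
lemma wr_rec {α : ℝ} (n : ℕ) : ((n : ℝ) + 1) * coeff (n+1) (wr α) =
    ∑ k ∈ range (n + 1), (α * (k + 1) - ((n : ℝ) - k)) * hc α (k+1) * coeff (n - k) (wr α) := by
  have hP := isPow_pw α (hc0 α)
  have h1 := congrArg (coeff (n+1)) hP.2
  rw [coeff_C_mul, mul_comm (pw α (PowerSeries.mk (hc α))), coeff_mul, coeff_mul,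
    Finset.Nat.sum_antidiagonal_eq_sum_range_succ
      (fun i j => coeff i (PowerSeries.mk (hc α)) * coeff j (D (pw α (PowerSeries.mk (hc α))))) (n+1),
    Finset.Nat.sum_antidiagonal_eq_sum_range_succ
      (fun i j => coeff i (D (PowerSeries.mk (hc α))) * coeff j (pw α (PowerSeries.mk (hc α)))) (n+1),
    Finset.sum_range_succ' _ (n+1), Finset.sum_range_succ' _ (n+1)] at h1
  simp only [coeff_D, coeff_mk, Nat.sub_zero, Nat.cast_zero, zero_mul, add_zero] at h1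
  rw [← wr] at h1
  have h0 : hc α 0 = 1 := by simp [hc]
  rw [h0, one_mul, Finset.mul_sum] at h1
  have h2 : ((n : ℝ) + 1) * coeff (n+1) (wr α) = ∑ k ∈ range (n + 1),
      (α * (((k + 1 : ℕ) : ℝ) * hc α (k + 1) * coeff (n + 1 - (k + 1)) (wr α))
        - hc α (k + 1) * (((n + 1 - (k + 1) : ℕ) : ℝ) * coeff (n + 1 - (k + 1)) (wr α))) := by
    rw [Finset.sum_sub_distrib, ← h1]
    push_cast
    ring
  rw [h2]
  apply Finset.sum_congr rfl
  intro k hk
  rw [mem_range] at hk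
  have h3 : n + 1 - (k + 1) = n - k := by omega
  rw [h3, Nat.cast_sub (by omega)]
  push_cast
  ring

end Pool.Agent.Q139.Mal
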