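import Pool.Agent.Q139.Mal.Expl

namespace Pool.Agent.Q139.Mal
open Pool.Agent.Q139.Baz Metric Finset PowerSeries

/-- starlike functions are injective -/
theorem starlike_inj {q l : ℂ → ℂ} (hl : ∀ z ∈ ball (0 : ℂ) 1, HasDerivAt l (dslope q 0 z) z)
    (q0 : q 0 = 1) (hpos : ∀ z ∈ ball (0 : ℂ) 1, 0 < (q z).re) :
    Set.InjOn (fun z => z * Complex.exp (l z)) (ball 0 1) := by
  obtain ⟨G, hG⟩ : ∃ G : ℂ → ℂ, G = fun ζ => ζ + l (Complex.exp ζ) := ⟨_, rfl⟩
  have hmem : ∀ ζ ∈ {ζ : ℂ | ζ.re < 0}, Complex.exp ζ ∈ ball (0 : ℂ) 1 := by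
    intro ζ hζ
    have hζ' : ζ.re < 0 := hζ
    rw [mem_ball_zero_iff, Complex.norm_exp]
    rw [← Real.exp_zero]
    exact Real.exp_lt_exp.2 hζ'
  have hqe : ∀ z, q z = 1 + z * dslope q 0 z := by
    intro z
    have := dslope_eq q z
    rwa [q0] at this
  have hder : ∀ ζ ∈ {ζ : ℂ | ζ.re < 0}, HasDerivAt G (q (Complex.exp ζ)) ζ := by
    intro ζ hζ
    have h1 : HasDerivAt (fun ζ => l (Complex.exp ζ)) (dslope q 0 (Complex.exp ζ) * Complex.exp ζ) ζ :=
      (hl _ (hmem ζ hζ)).comp ζ (Complex.hasDerivAt_exp ζ)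
    have h2 := (hasDerivAt_id ζ).add h1
    rw [hG]
    convert! h2 using 1
    rw [hqe]; ring
  have hinj := inj_of_re_deriv_pos (convex_halfSpace_re_lt 0) hder
    (fun ζ hζ => hpos _ (hmem ζ hζ))
  intro z1 h1 z2 h2 he
  simp only at he
  rcases eq_or_ne z1 0 with hz1 | hz1
  · rw [hz1, zero_mul] at he
    rcases mul_eq_zero.1 he.symm with h3 | h3
    · rw [hz1, h3]
    · exact absurd h3 (Complex.exp_ne_zero _)
  · have hz2 : z2 ≠ 0 := by
      intro h3
      rw [h3, zero_mul] at he
      rcases mul_eq_zero.1 he with h4 | h4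
      · exact hz1 h4
      · exact absurd h4 (Complex.exp_ne_zero _)
    have hlog : ∀ z ∈ ball (0 : ℂ) 1, z ≠ 0 → (Complex.log z).re < 0 := by
      intro z hz hz0
      rw [mem_ball_zero_iff] at hz
      rw [Complex.log_re]
      exact Real.log_neg (norm_pos_iff.2 hz0) hz
    have hexpG : ∀ z, z ≠ 0 → Complex.exp (G (Complex.log z)) = z * Complex.exp (l z) := by
      intro z hz0
      rw [hG]
      simp only
      rw [Complex.exp_add, Complex.exp_log hz0]
    have h5 : Complex.exp (G (Complex.log z1)) = Complex.exp (G (Complex.log z2)) := by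
      rw [hexpG z1 hz1, hexpG z2 hz2, he]
    obtain ⟨n, hn⟩ := Complex.exp_eq_exp_iff_exists_int.1 h5
    obtain ⟨ζ, hζ⟩ : ∃ ζ, ζ = Complex.log z2 + n * (2 * Real.pi * Complex.I) := ⟨_, rfl⟩
    have hζe : Complex.exp ζ = z2 := by
      rw [hζ, Complex.exp_add, Complex.exp_log hz2, Complex.exp_int_mul_two_pi_mul_I, mul_one]
    have hζre : ζ.re < 0 := by
      have h6 : ζ.re = (Complex.log z2).re := by
        rw [hζ, Complex.add_re]
        have : ((n : ℂ) * (2 * Real.pi * Complex.I)).re = 0 := by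
          have e : (n : ℂ) * (2 * Real.pi * Complex.I) =
              ((n * (2 * Real.pi) : ℝ) : ℂ) * Complex.I := by push_cast; ring
          rw [e, Complex.re_ofReal_mul, Complex.I_re, mul_zero]
        rw [this, add_zero]
      rw [h6]
      exact hlog z2 h2 hz2
    have hGζ : G ζ = G (Complex.log z1) := by
      rw [hn, hG]
      simp only
      rw [hζe, Complex.exp_log hz2, hζ]; ring
    have h7 := hinj hζre (hlog z1 h1 hz1) hGζ
    rw [← hζe, h7, Complex.exp_log hz1]

lemma D_unique {P R V : PowerSeries ℂ} (hP0 : constantCoeff P = 1) (hR0 : constantCoeff R = 1)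
    (hP : D P = P * V) (hR : D R = R * V) : P = R := by
  have hR0' : constantCoeff R ≠ 0 := by rw [hR0]; exact one_ne_zero
  have hRi : R * R⁻¹ = 1 := PowerSeries.mul_inv_cancel R hR0'
  have h1 : D R * R⁻¹ + R * D R⁻¹ = 0 := by rw [← D_mul, hRi, D_one]
  have h2 : D R⁻¹ = -(R⁻¹ * V) := by
    rw [hR] at h1
    linear_combination R⁻¹ * h1 - (D R⁻¹ + R⁻¹ * V) * hRi
  have h3 : D (P * R⁻¹) = 0 := by
    rw [D_mul, hP, h2]; ring
  have h4 : P * R⁻¹ = 1 := eq_one_of_D (by
    rw [map_mul, hP0, one_mul]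
    have := congrArg constantCoeff hRi
    rw [map_mul, hR0, one_mul, map_one] at this
    exact this) h3
  calc P = P * R⁻¹ * R := by rw [mul_assoc, mul_comm R⁻¹, hRi, mul_one]
    _ = R := by rw [h4, one_mul]

/-- The extremal function. -/
theorem exists_extremal_ac {α : ℝ} (hα : 0 < α) : ∃ k l : ℂ → ℂ, AC α k ∧
    Set.InjOn k (ball 0 1) ∧ (∀ m, tc k (m + 1) = ((coeff m (wr α) : ℝ) : ℂ)) ∧
    LogBranch k l ∧ ∀ j, tc (fun z => Complex.exp (((1 / α : ℝ) : ℂ) * l z)) j =
      ((hc α j : ℝ) : ℂ) := by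
  obtain ⟨Y, hY, hYts⟩ := exists_Y hα
  obtain ⟨q, hq⟩ : ∃ q : ℂ → ℂ, q = fun z => (Y z)⁻¹ := ⟨_, rfl⟩
  have hqd : DifferentiableOn ℂ q (ball 0 1) := by rw [hq]; exact hY.qdiff hα
  have hq0 : q 0 = 1 := by rw [hq]; simp [hY.zero]
  have hqpos : ∀ z ∈ ball (0 : ℂ) 1, 0 < (q z).re := by
    intro z hz; rw [hq]; exact inv_re_pos (hY.re hα hz)
  have hqne : ∀ z ∈ ball (0 : ℂ) 1, q z ≠ 0 := by
    intro z hz h0
    have := hqpos z hz
    rw [h0] at this; simp at this
  have hqts : ts q = cx (Qr α) := by rw [hq]; exact ts_Yinv hα hY hYts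
  obtain ⟨l, hl0, hl⟩ := ((dslope_diff hqd).isExactOn_ball).with_val_at 0 0
  have hqe : ∀ z, q z = 1 + z * dslope q 0 z := by
    intro z
    have := dslope_eq q z
    rwa [hq0] at this
  obtain ⟨k, hk⟩ : ∃ k : ℂ → ℂ, k = fun z => z * Complex.exp (l z) := ⟨_, rfl⟩
  have hld : DifferentiableOn ℂ l (ball 0 1) := fun z hz =>
    (hl z hz).differentiableAt.differentiableWithinAt
  have hkd : ∀ z ∈ ball (0 : ℂ) 1, HasDerivAt k (Complex.exp (l z) * q z) z := by
    intro z hz
    have h1 := (hasDerivAt_id z).mul (hl z hz).cexp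
    rw [hk]
    convert! h1 using 1
    rw [hqe]
    simp only [id]
    ring
  have hdk : ∀ z ∈ ball (0 : ℂ) 1, deriv k z = Complex.exp (l z) * q z :=
    fun z hz => (hkd z hz).deriv
  have hAC : AC α k := by
    refine ⟨fun z hz => (hkd z hz).differentiableAt.differentiableWithinAt, by rw [hk]; simp,
      ?_, ?_, ?_, ?_⟩
    · rw [hdk 0 zero_mem, hl0, hq0]; simp
    · intro z hz hz0
      rw [hk]
      exact mul_ne_zero hz0 (Complex.exp_ne_zero _)
    · intro z hz
      rw [hdk z hz]
      exact mul_ne_zero (Complex.exp_ne_zero _) (hqne z hz)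
    · intro z hz hz0
      have hqz : HasDerivAt q (deriv q z) z := (anal hqd hz).differentiableAt.hasDerivAt
      have h1 : deriv (deriv k) z = Complex.exp (l z) * dslope q 0 z * q z +
          Complex.exp (l z) * deriv q z := by
        have h2 : deriv k =ᶠ[nhds z] fun w => Complex.exp (l w) * q w := by
          filter_upwards [isOpen_ball.mem_nhds hz] with w hw
          exact hdk w hw
        rw [h2.deriv_eq]
        exact ((hl z hz).cexp.mul hqz).deriv
      have hYz : HasDerivAt Y (deriv Y z) z := (anal hY.diff hz).differentiableAt.hasDerivAt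
      have hYne := hY.ne hα hz
      have h3 : deriv q z = -deriv Y z / (Y z) ^ 2 := by
        rw [hq]
        exact (hYz.inv hYne).deriv
      have h4 := hY.ode z hz
      have hqY : q z = (Y z)⁻¹ := by rw [hq]
      have h5 : (α * (1 + z * deriv (deriv k) z / deriv k z) + (1 - α) * (z * deriv k z / k z)) =
          p0 z := by
        rw [h1, hdk z hz]
        have hkz : k z = z * Complex.exp (l z) := by rw [hk]
        rw [hkz]
        have he := Complex.exp_ne_zero (l z)
        have hqn := hqne z hz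
        have h6 : z * (Complex.exp (l z) * dslope q 0 z * q z + Complex.exp (l z) * deriv q z) /
            (Complex.exp (l z) * q z) = z * dslope q 0 z + z * deriv q z / q z := by
          field_simp
        have h7 : z * (Complex.exp (l z) * q z) / (z * Complex.exp (l z)) = q z := by
          field_simp
        rw [h6, h7]
        have h8 : z * dslope q 0 z = q z - 1 := by rw [hqe z]; ring
        rw [h8, h3, hqY]
        have h9 : p0 z = (1 - α * (z * deriv Y z)) / Y z := by
          rw [← h4]; field_simp; ring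
        rw [h9]
        field_simp
        ring
      rw [h5]
      exact p0_re hz
  have hLB : LogBranch k l := ⟨hld, hl0, fun z _ => by rw [hk]⟩
  have hts : ts (fun z => Complex.exp (l z)) = cx (wr α) := by
    have hEd : DifferentiableOn ℂ (fun z => Complex.exp (l z)) (ball 0 1) := hld.cexp
    have hEa : AnalyticAt ℂ (fun z => Complex.exp (l z)) 0 := anal hEd zero_mem
    have hqa : AnalyticAt ℂ q 0 := anal hqd zero_mem
    have hD1 : D (ts (fun z => Complex.exp (l z))) = ts (fun z => Complex.exp (l z)) *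
        (cx (Qr α) - 1) := by
      have hzE : AnalyticAt ℂ (fun z : ℂ => z * deriv (fun w => Complex.exp (l w)) z)
        0 := analyticAt_id.mul hEa.deriv
      have h2 : D (ts (fun z => Complex.exp (l z))) + ts (fun z => Complex.exp (l z)) =
          ts (fun z => Complex.exp (l z)) * cx (Qr α) := by
        rw [← hqts, D_ts hEa, ← ts_add hzE hEa, ← ts_mul hEa hqa]
        apply ts_congr
        filter_upwards [ball_nhds] with z hz
        rw [((hl z hz).cexp).deriv, hqe z]
        ring
      linear_combination h2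
    have hD2 : D (cx (wr α)) = cx (wr α) * (cx (Qr α) - 1) := by
      rw [D_cx, D_wr hα, map_mul, map_sub, map_one]
    exact D_unique (by rw [constantCoeff_ts, hl0]; simp)
      (by rw [constantCoeff_cx, wr0]; simp) hD1 hD2
  refine ⟨k, l, hAC, ?_, ?_, hLB, ?_⟩
  · rw [hk]; exact starlike_inj hl hq0 hqpos
  · intro m
    have h1 : ts k = X * ts (fun z => Complex.exp (1 * l z)) := ts_f hLB
    simp only [one_mul] at h1
    rw [← coeff_ts, h1, coeff_succ_X_mul, hts, coeff_cx]
  · intro j
    have h1 := isPow_exp hLB (a := 1) one_ne_zero (1 / α)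
    simp only [Complex.ofReal_one, one_mul, div_one] at h1
    rw [hts] at h1
    have hc1 : constantCoeff (cx (wr α)) = 1 := by rw [constantCoeff_cx, wr0]; simp
    have h2 := IsPow.unique hc1 h1 (isPow_pw _ hc1)
    rw [pw_cx _ (wr0 α), wr, pw_pw _ _ (hc0 α), one_div, inv_mul_cancel₀ hα.ne',
      pw_one (hc0 α)] at h2
    rw [← coeff_ts, one_div, h2, coeff_cx, coeff_mk]

/-- the coefficient bound for the class. -/
theorem main_bound_ac {α : ℝ} (hα : 0 < α) (hα1 : α < 1) {f : ℂ → ℂ} (h : AC α f) (m : ℕ) :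
    ‖tc f (m + 1)‖ ≤ coeff m (wr α) := by
  obtain ⟨Y, hY, hYts⟩ := exists_Y hα
  have h1 := h.bound hα hY (ts_Yinv hα hY hYts) (pw_Qr_nn hα (by linarith)) m
  rw [bound_eq hα m] at h1
  have hfa : AnalyticAt ℂ f 0 := anal h.diff zero_mem
  have h2 : tc (deriv f) m = ((m : ℂ) + 1) * tc f (m + 1) := by
    rw [← coeff_ts, ← derivative_ts, coeff_derivative, coeff_ts]; ring
  rw [h2, norm_mul] at h1
  have h3 : ‖(m : ℂ) + 1‖ = (m : ℝ) + 1 := by
    have := Complex.norm_natCast (m + 1)
    push_cast at this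
    exact this
  rw [h3] at h1
  exact le_of_mul_le_mul_left h1 (by positivity)

end Pool.Agent.Q139.Mal
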