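import Pool.Agent.Q139.Baz.Main

namespace Pool.Agent.Q139.Mal
open Pool.Agent.Q139.Baz Metric Finset

/-- long truncations of the Taylor series on `|z| = R < 1` are bounded by `1 + ε`. -/
lemma exists_trunc_norm {p : ℂ → ℂ} (hp : DifferentiableOn ℂ p (ball 0 1))
    (hb : ∀ z ∈ ball (0 : ℂ) 1, ‖p z‖ ≤ 1) {R : ℝ} (hR0 : 0 < R) (hR1 : R < 1)
    {ε : ℝ} (hε : 0 < ε) (n : ℕ) : ∃ M, n < M ∧ ∀ w : ℂ, ‖w‖ = 1 →
      ‖∑ k ∈ range M, tc p k * (R : ℂ) ^ k * w ^ k‖ ≤ 1 + ε := by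
  obtain ⟨a, ha⟩ : ∃ a : ℕ → ℂ, a = fun k => tc p k * (R : ℂ) ^ k := ⟨_, rfl⟩
  have hRn : ∀ w : ℂ, ‖w‖ = 1 → ‖(R : ℂ) * w‖ < 1 := by
    intro w hw
    rw [norm_mul, hw, mul_one, Complex.norm_real, Real.norm_of_nonneg hR0.le]
    exact hR1
  have hsum : ∀ w : ℂ, ‖w‖ = 1 → HasSum (fun k => a k * w ^ k) (p (R * w)) := by
    intro w hw
    have h := taylor_hasSum hp (hRn w hw)
    have e : (fun k => tc p k * ((R : ℂ) * w) ^ k) = fun k => a k * w ^ k := by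
      funext k
      rw [ha, mul_pow]; ring
    rw [e] at h
    exact h
  have hsa : Summable (fun k => ‖a k‖) := by
    have h1 := (hsum 1 norm_one).summable
    simp only [one_pow, mul_one] at h1
    exact h1.norm
  have htail := tendsto_sum_nat_add (fun k => ‖a k‖)
  have hev := (htail.eventually (gt_mem_nhds hε)).and (Filter.eventually_gt_atTop n)
  obtain ⟨M, hM1, hM2⟩ := hev.exists
  refine ⟨M, hM2, ?_⟩
  intro w hw
  have h1 := hsum w hw
  have h2 : HasSum (fun k => a (k + M) * w ^ (k + M))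
      (p (R * w) - ∑ k ∈ range M, a k * w ^ k) := (hasSum_nat_add_iff' M).2 h1
  have h3 : ‖p (R * w) - ∑ k ∈ range M, a k * w ^ k‖ ≤ ∑' k, ‖a (k + M)‖ := by
    rw [← h2.tsum_eq]
    apply tsum_of_norm_bounded (g := fun k => ‖a (k + M)‖)
    · exact ((summable_nat_add_iff M).2 hsa).hasSum
    · intro k
      rw [norm_mul, norm_pow, hw, one_pow, mul_one]
  have h4 : ‖p (R * w)‖ ≤ 1 := hb _ (by rw [mem_ball_zero_iff]; exact hRn w hw)
  have h6 : ∑ k ∈ range M, tc p k * (R : ℂ) ^ k * w ^ k = ∑ k ∈ range M, a k * w ^ k := by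
    rw [ha]
  rw [h6]
  have h7 : ∑' k, ‖a (k + M)‖ < ε := hM1
  have h8 : ∑ k ∈ range M, a k * w ^ k = p (R * w) - (p (R * w) - ∑ k ∈ range M, a k * w ^ k) := by
    ring
  rw [h8]
  calc _ ≤ ‖p (R * w)‖ + ‖p (R * w) - ∑ k ∈ range M, a k * w ^ k‖ := norm_sub_le _ _
    _ ≤ 1 + ε := by linarith

lemma poly_avg {N : ℕ} {ω : ℂ} (hω : IsPrimitiveRoot ω N) (hN : 0 < N) (P : Polynomial ℂ)
    (hP : P.natDegree < N) {n : ℕ} (hn : n < N) :
    ∑ j : Fin N, P.eval (ω ^ (j : ℕ)) * ((starRingEnd ℂ) (ω ^ (j : ℕ))) ^ n =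
      (N : ℂ) * P.coeff n := by
  have h1 : ∀ j : Fin N, P.eval (ω ^ (j : ℕ)) * ((starRingEnd ℂ) (ω ^ (j : ℕ))) ^ n =
      ∑ i ∈ range N, P.coeff i * ((ω ^ (j : ℕ)) ^ i * ((starRingEnd ℂ) (ω ^ (j : ℕ))) ^ n) := by
    intro j
    rw [Polynomial.eval_eq_sum_range' hP, Finset.sum_mul]
    apply Finset.sum_congr rfl
    intro i _
    ring
  rw [Finset.sum_congr rfl (fun j _ => h1 j), Finset.sum_comm]
  have h2 : ∀ i ∈ range N, ∑ j : Fin N, P.coeff i * ((ω ^ (j : ℕ)) ^ i *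
      ((starRingEnd ℂ) (ω ^ (j : ℕ))) ^ n) = if i = n then (N : ℂ) * P.coeff n else 0 := by
    intro i hi
    rw [mem_range] at hi
    rw [← Finset.mul_sum, orth hω hN hi hn]
    split_ifs with h
    · rw [h]; ring
    · ring
  rw [Finset.sum_congr rfl h2, Finset.sum_ite_eq' (range N) n, if_pos (mem_range.2 hn)]

lemma parseval {N : ℕ} {ω : ℂ} (hω : IsPrimitiveRoot ω N) (hN : 0 < N) (b : ℕ → ℂ) {n : ℕ}
    (hn : n < N) :
    ∑ j : Fin N, ‖∑ a ∈ range (n + 1), b a * (ω ^ (j : ℕ)) ^ a‖ ^ 2 =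
      N * ∑ a ∈ range (n + 1), ‖b a‖ ^ 2 := by
  have hC : ((∑ j : Fin N, ‖∑ a ∈ range (n + 1), b a * (ω ^ (j : ℕ)) ^ a‖ ^ 2 : ℝ) : ℂ) =
      ((N * ∑ a ∈ range (n + 1), ‖b a‖ ^ 2 : ℝ) : ℂ) := by
    have hsq : ∀ x : ℂ, ((‖x‖ ^ 2 : ℝ) : ℂ) = x * (starRingEnd ℂ) x := by
      intro x
      rw [Complex.mul_conj, Complex.normSq_eq_norm_sq]
    rw [Complex.ofReal_sum, Complex.ofReal_mul, Complex.ofReal_sum]
    have h1 : ∀ j : Fin N, ((‖∑ a ∈ range (n + 1), b a * (ω ^ (j : ℕ)) ^ a‖ ^ 2 : ℝ) : ℂ) =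
        ∑ a ∈ range (n + 1), ∑ c ∈ range (n + 1), (b a * (starRingEnd ℂ) (b c)) *
          ((ω ^ (j : ℕ)) ^ a * ((starRingEnd ℂ) (ω ^ (j : ℕ))) ^ c) := by
      intro j
      rw [hsq, map_sum, Finset.sum_mul_sum]
      apply Finset.sum_congr rfl
      intro a _
      apply Finset.sum_congr rfl
      intro c _
      rw [map_mul, map_pow (starRingEnd ℂ) (ω ^ (j : ℕ)) c]
      ring
    rw [Finset.sum_congr rfl (fun j _ => h1 j), Finset.sum_comm, Finset.mul_sum]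
    apply Finset.sum_congr rfl
    intro a ha
    rw [Finset.sum_comm]
    have h2 : ∀ c ∈ range (n + 1), ∑ j : Fin N, (b a * (starRingEnd ℂ) (b c)) *
          ((ω ^ (j : ℕ)) ^ a * ((starRingEnd ℂ) (ω ^ (j : ℕ))) ^ c) =
        if c = a then (N : ℂ) * ((‖b a‖ ^ 2 : ℝ) : ℂ) else 0 := by
      intro c hc
      rw [mem_range] at ha hc
      rw [← Finset.mul_sum, orth hω hN (by omega) (by omega)]
      by_cases h : a = c
      · rw [if_pos h, if_pos h.symm, hsq, h]; ring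
      · rw [if_neg h, if_neg (Ne.symm h)]; ring
    rw [Finset.sum_congr rfl h2, Finset.sum_ite_eq' (range (n+1)) a, if_pos ha]
    rfl
  exact_mod_cast hC

open PowerSeries in
lemma coeff_mul_congr {P P' Q Q' : PowerSeries ℂ} {n : ℕ}
    (hP : ∀ k ≤ n, coeff k P = coeff k P') (hQ : ∀ k ≤ n, coeff k Q = coeff k Q') :
    ∀ k ≤ n, coeff k (P * Q) = coeff k (P' * Q') := by
  intro k hk
  rw [coeff_mul, coeff_mul]
  apply Finset.sum_congr rfl
  intro p hp
  rw [HasAntidiagonal.mem_antidiagonal] at hp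
  rw [hP _ (by omega), hQ _ (by omega)]

open PowerSeries in
/-- The Toeplitz bound. -/
theorem toeplitz {B : PowerSeries ℂ} (hB : ∀ a, ‖coeff a B‖ ≤ 1) {Ψ : ℂ → ℂ}
    (hΨ : DifferentiableOn ℂ Ψ (ball 0 1)) (hb : ∀ z ∈ ball (0 : ℂ) 1, ‖Ψ z‖ ≤ 1) (n : ℕ) :
    ‖coeff n (B * B * ts Ψ)‖ ≤ n + 1 := by
  have key : ∀ R : ℝ, 0 < R → R < 1 → ∀ ε : ℝ, 0 < ε →
      ‖coeff n (B * B * rescale (R : ℂ) (ts Ψ))‖ ≤ (n + 1) * (1 + ε) := by
    intro R hR0 hR1 ε hε
    obtain ⟨M, hM, hT⟩ := exists_trunc_norm hΨ hb hR0 hR1 hε n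
    obtain ⟨U, hU⟩ : ∃ U : Polynomial ℂ, U = trunc (n + 1) B := ⟨_, rfl⟩
    obtain ⟨V, hV⟩ : ∃ V : Polynomial ℂ, V = trunc M (rescale (R : ℂ) (ts Ψ)) := ⟨_, rfl⟩
    obtain ⟨N, hNd⟩ : ∃ N, N = (U * U * V).natDegree + n + 1 := ⟨_, rfl⟩
    have hN : 0 < N := by omega
    have hω := Complex.isPrimitiveRoot_exp N hN.ne'
    obtain ⟨ω, hωd⟩ : ∃ ω, ω = Complex.exp (2 * Real.pi * Complex.I / (N : ℂ)) := ⟨_, rfl⟩
    rw [← hωd] at hω
    have hn1 : ‖ω‖ = 1 := Complex.norm_eq_one_of_pow_eq_one hω.pow_eq_one hN.ne'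
    have hnj : ∀ j : Fin N, ‖ω ^ (j : ℕ)‖ = 1 := by
      intro j; rw [norm_pow, hn1, one_pow]
    have havg := poly_avg hω hN (U * U * V) (by omega) (n := n) (by omega)
    have hcoef : (U * U * V).coeff n = coeff n (B * B * rescale (R : ℂ) (ts Ψ)) := by
      rw [← Polynomial.coeff_coe, Polynomial.coe_mul, Polynomial.coe_mul]
      have hUc : ∀ k ≤ n, coeff k (U : PowerSeries ℂ) = coeff k B := by
        intro k hk
        rw [Polynomial.coeff_coe, hU, coeff_trunc, if_pos (by omega)]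
      have hVc : ∀ k ≤ n, coeff k (V : PowerSeries ℂ) = coeff k (rescale (R : ℂ) (ts Ψ)) := by
        intro k hk
        rw [Polynomial.coeff_coe, hV, coeff_trunc, if_pos (by omega)]
      exact coeff_mul_congr (coeff_mul_congr hUc hUc) hVc n le_rfl
    have hUe : ∀ x : ℂ, U.eval x = ∑ a ∈ range (n + 1), coeff a B * x ^ a := by
      intro x
      rw [hU]
      have := eval₂_trunc_eq_sum_range (S := ℂ) x (RingHom.id ℂ) (n + 1) B
      simpa [Polynomial.eval₂_id] using this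
    have hVe : ∀ x : ℂ, V.eval x = ∑ k ∈ range M, tc Ψ k * (R : ℂ) ^ k * x ^ k := by
      intro x
      rw [hV]
      have := eval₂_trunc_eq_sum_range (S := ℂ) x (RingHom.id ℂ) M (rescale (R : ℂ) (ts Ψ))
      rw [Polynomial.eval₂_id] at this
      rw [this]
      apply Finset.sum_congr rfl
      intro k _
      rw [RingHom.id_apply, coeff_rescale, coeff_ts]
      ring
    have hp := parseval hω hN (fun a => coeff a B) (n := n) (by omega)
    have hNR : (0 : ℝ) < N := by exact_mod_cast hN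
    have h1 : ‖(N : ℂ) * coeff n (B * B * rescale (R : ℂ) (ts Ψ))‖ ≤
        N * ((n + 1) * (1 + ε)) := by
      rw [← hcoef, ← havg]
      refine (norm_sum_le _ _).trans ?_
      calc ∑ j : Fin N, ‖(U * U * V).eval (ω ^ (j : ℕ)) * ((starRingEnd ℂ) (ω ^ (j : ℕ))) ^ n‖
          ≤ ∑ j : Fin N, ‖∑ a ∈ range (n + 1), coeff a B * (ω ^ (j : ℕ)) ^ a‖ ^ 2 * (1 + ε) := by
            apply Finset.sum_le_sum
            intro j _
            rw [norm_mul, norm_pow, Complex.norm_conj, hnj, one_pow, mul_one,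
              Polynomial.eval_mul, Polynomial.eval_mul, norm_mul, norm_mul, hUe, hVe]
            rw [← pow_two]
            exact mul_le_mul_of_nonneg_left (hT _ (hnj j)) (by positivity)
        _ = (N * ∑ a ∈ range (n + 1), ‖coeff a B‖ ^ 2) * (1 + ε) := by
            rw [← Finset.sum_mul, hp]
        _ ≤ (N * (n + 1)) * (1 + ε) := by
            apply mul_le_mul_of_nonneg_right _ (by linarith)
            apply mul_le_mul_of_nonneg_left _ hNR.le
            calc ∑ a ∈ range (n + 1), ‖coeff a B‖ ^ 2 ≤ ∑ a ∈ range (n + 1), (1 : ℝ) := by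
                  apply Finset.sum_le_sum
                  intro a _
                  exact pow_le_one₀ (norm_nonneg _) (hB a)
              _ = n + 1 := by simp
        _ = _ := by ring
    rw [norm_mul, Complex.norm_natCast] at h1
    exact le_of_mul_le_mul_left h1 hNR
  have key2 : ∀ R : ℝ, 0 < R → R < 1 →
      ‖coeff n (B * B * rescale (R : ℂ) (ts Ψ))‖ ≤ n + 1 := by
    intro R hR0 hR1
    apply le_of_forall_pos_le_add
    intro ε hε
    have hn : (0 : ℝ) < n + 1 := by positivity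
    have := key R hR0 hR1 (ε / (n + 1)) (by positivity)
    calc _ ≤ _ := this
      _ = n + 1 + ε := by field_simp
  have hlim : Filter.Tendsto (fun R : ℝ => ‖coeff n (B * B * rescale (R : ℂ) (ts Ψ))‖)
      (nhdsWithin 1 (Set.Iio 1)) (nhds ‖coeff n (B * B * ts Ψ)‖) := by
    apply Filter.Tendsto.mono_left _ nhdsWithin_le_nhds
    have hc : Continuous (fun R : ℝ => ‖coeff n (B * B * rescale (R : ℂ) (ts Ψ))‖) := by
      simp only [coeff_mul _ (B * B), coeff_rescale]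
      fun_prop
    have h2 := hc.tendsto 1
    simpa using h2
  apply le_of_tendsto hlim
  have h1 : Set.Ioo (0 : ℝ) 1 ∈ nhdsWithin (1 : ℝ) (Set.Iio 1) := Ioo_mem_nhdsLT one_pos
  filter_upwards [h1] with R hR
  exact key2 R hR.1 hR.2

end Pool.Agent.Q139.Mal
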