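import Pool.Agent.Q139.Mal.Pos

namespace Pool.Agent.Q139.Mal
open Pool.Agent.Q139.Baz Metric

/-- boundary computation. -/
lemma bdry_re {z : ℂ} (hz : ‖z‖ = 1) (q : ℂ) :
    (((1 - z ^ 2) - (1 - z) ^ 2 * q) / (2 * z)).re = (1 - z.re) * q.re := by
  have hz0 : z ≠ 0 := by
    intro h; rw [h, norm_zero] at hz; exact zero_ne_one hz
  have h1 : z⁻¹ = (starRingEnd ℂ) z := Complex.inv_eq_conj hz
  have h2 : ((1 - z ^ 2) - (1 - z) ^ 2 * q) / (2 * z) =
      (1 / 2 : ℝ) * ((starRingEnd ℂ) z - z) + ((1 - z.re : ℝ) : ℂ) * q := by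
    have h3 : (z.re : ℂ) = (z + z⁻¹) / 2 := by
      rw [h1, Complex.re_eq_add_conj]
    rw [← h1]
    push_cast
    rw [h3]
    field_simp
    ring
  rw [h2, Complex.add_re, Complex.re_ofReal_mul, Complex.re_ofReal_mul]
  simp

lemma nprop_nonneg {q : ℂ → ℂ} (hq : DifferentiableOn ℂ q (ball 0 1)) (q0 : q 0 = 1)
    (hpos : ∀ z ∈ ball (0 : ℂ) 1, 0 < (q z).re) {z : ℂ} (hz : z ∈ ball (0 : ℂ) 1) (hz0 : z ≠ 0) :
    0 ≤ (((1 - z ^ 2) - (1 - z) ^ 2 * q z) / (2 * z)).re := by
  have key : ∀ R : ℝ, 0 < R → R < 1 →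
      0 ≤ (((1 - z ^ 2) - (1 - z) ^ 2 * q (R * z)) / (2 * z)).re := by
    intro R hR0 hR1
    obtain ⟨ψ, hψ⟩ : ∃ ψ : ℂ → ℂ, ψ = fun w => (1 - w ^ 2) - (1 - w) ^ 2 * q (R * w) := ⟨_, rfl⟩
    have hR' : 1 < 1 / R := by rw [lt_div_iff₀ hR0]; linarith
    have hψd : DifferentiableOn ℂ ψ (ball 0 (1 / R)) := by
      rw [hψ]
      have h1 : DifferentiableOn ℂ (fun w : ℂ => q (R * w)) (ball 0 (1 / R)) := by
        apply hq.comp (by fun_prop)
        intro w hw
        rw [mem_ball_zero_iff] at hw ⊢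
        rw [norm_mul, Complex.norm_real, Real.norm_of_nonneg hR0.le]
        rw [lt_div_iff₀ hR0] at hw
        linarith
      have h2 : DifferentiableOn ℂ (fun w : ℂ => 1 - w ^ 2) (ball 0 (1 / R)) := by fun_prop
      have h3 : DifferentiableOn ℂ (fun w : ℂ => (1 - w) ^ 2) (ball 0 (1 / R)) := by fun_prop
      exact h2.sub (h3.mul h1)
    have hψ0 : ψ 0 = 0 := by rw [hψ]; simp [q0]
    have hd : DifferentiableOn ℂ (dslope ψ 0) (ball 0 (1 / R)) :=
      (Complex.differentiableOn_dslope (ball_mem_nhds 0 (by positivity))).2 hψd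
    have he : DifferentiableOn ℂ (fun w => Complex.exp (-((1 / 2 : ℂ) * dslope ψ 0 w)))
        (ball 0 (1 / R)) := ((hd.const_mul _).neg).cexp
    have hcl : DiffContOnCl ℂ (fun w => Complex.exp (-((1 / 2 : ℂ) * dslope ψ 0 w)))
        (ball 0 1) := by
      apply DifferentiableOn.diffContOnCl
      rw [closure_ball _ one_ne_zero]
      exact he.mono (closedBall_subset_ball hR')
    have hval : ∀ w : ℂ, w ≠ 0 → (1 / 2 : ℂ) * dslope ψ 0 w =
        ((1 - w ^ 2) - (1 - w) ^ 2 * q (R * w)) / (2 * w) := by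
      intro w hw
      rw [dslope_of_ne _ hw, slope_def_field, hψ0, hψ]
      field_simp
      ring
    have hfr : ∀ w ∈ frontier (ball (0 : ℂ) 1),
        ‖Complex.exp (-((1 / 2 : ℂ) * dslope ψ 0 w))‖ ≤ 1 := by
      intro w hw
      rw [frontier_ball _ one_ne_zero, mem_sphere_zero_iff_norm] at hw
      have hw0 : w ≠ 0 := by
        intro h; rw [h, norm_zero] at hw; exact zero_ne_one hw
      rw [Complex.norm_exp, Real.exp_le_one_iff, Complex.neg_re, hval w hw0, bdry_re hw]
      have h1 : w.re ≤ 1 := by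
        have := Complex.re_le_norm w
        rwa [hw] at this
      have h2 : 0 < (q (R * w)).re := by
        apply hpos
        rw [mem_ball_zero_iff, norm_mul, Complex.norm_real, Real.norm_of_nonneg hR0.le, hw]
        linarith
      have := mul_nonneg (sub_nonneg.2 h1) h2.le
      linarith
    have hfin := Complex.norm_le_of_forall_mem_frontier_norm_le isBounded_ball hcl hfr
      (subset_closure hz)
    rw [Complex.norm_exp, Real.exp_le_one_iff, Complex.neg_re, hval z hz0] at hfin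
    linarith
  have hcont : ContinuousAt q z := (anal hq hz).continuousAt
  have hlim : Filter.Tendsto (fun R : ℝ =>
      (((1 - z ^ 2) - (1 - z) ^ 2 * q (R * z)) / (2 * z)).re) (nhdsWithin 1 (Set.Iio 1))
      (nhds (((1 - z ^ 2) - (1 - z) ^ 2 * q z) / (2 * z)).re) := by
    apply Filter.Tendsto.mono_left _ nhdsWithin_le_nhds
    apply (Complex.continuous_re.tendsto _).comp
    apply Filter.Tendsto.div_const
    apply Filter.Tendsto.sub tendsto_const_nhds
    apply Filter.Tendsto.mul tendsto_const_nhds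
    have h1 : Filter.Tendsto (fun R : ℝ => (R : ℂ) * z) (nhds 1) (nhds z) := by
      have : Continuous (fun R : ℝ => (R : ℂ) * z) := by fun_prop
      have h2 := this.tendsto 1
      simpa using h2
    exact hcont.tendsto.comp h1
  apply ge_of_tendsto hlim
  have h1 : Set.Ioo (0 : ℝ) 1 ∈ nhdsWithin (1 : ℝ) (Set.Iio 1) := Ioo_mem_nhdsLT one_pos
  filter_upwards [h1] with R hR
  exact key R hR.1 hR.2

/-- the function `Y` of the extremal case -/
structure YData (α : ℝ) (Y : ℂ → ℂ) : Prop where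
  diff : DifferentiableOn ℂ Y (ball 0 1)
  zero : Y 0 = 1
  ode : ∀ z ∈ ball (0 : ℂ) 1, α * (z * deriv Y z) + p0 z * Y z = 1

section
variable {α : ℝ} {Y : ℂ → ℂ}

lemma YData.re (hα : 0 < α) (h : YData α Y) {z : ℂ} (hz : z ∈ ball (0 : ℂ) 1) : 0 < (Y z).re :=
  pos_of_ode hα h.diff (fun _ hz => p0_re hz) h.ode z hz

lemma YData.ne (hα : 0 < α) (h : YData α Y) {z : ℂ} (hz : z ∈ ball (0 : ℂ) 1) : Y z ≠ 0 := by
  intro h0
  have := h.re hα hz
  rw [h0] at this
  simp at this

/-- `q₀ = 1/Y` -/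
lemma inv_re_pos {w : ℂ} (h : 0 < w.re) : 0 < (w⁻¹).re := by
  have h0 : w ≠ 0 := by intro h0; rw [h0] at h; simp at h
  rw [Complex.inv_re]
  have := Complex.normSq_pos.2 h0
  positivity

lemma YData.qdiff (hα : 0 < α) (h : YData α Y) :
    DifferentiableOn ℂ (fun z => (Y z)⁻¹) (ball 0 1) :=
  h.diff.inv (fun _ hz => h.ne hα hz)

/-- `Y'(0) = -2/(1+α)`. -/
lemma YData.deriv0 (hα : 0 < α) (h : YData α Y) : deriv Y 0 = -(2 / (1 + α)) := by
  have hY : HasDerivAt Y (deriv Y 0) 0 := (anal h.diff zero_mem).differentiableAt.hasDerivAt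
  have hY2 : HasDerivAt (deriv Y) (deriv (deriv Y) 0) 0 :=
    (anal h.diff zero_mem).deriv.differentiableAt.hasDerivAt
  have hp : HasDerivAt p0 2 0 := by
    have h1 : HasDerivAt (fun z : ℂ => 1 + z) 1 0 := (hasDerivAt_id (0 : ℂ)).const_add 1
    have h2 : HasDerivAt (fun z : ℂ => 1 - z) (-1) 0 := (hasDerivAt_id (0 : ℂ)).const_sub 1
    have h3 := h1.div h2 (by norm_num)
    convert! h3 using 1
    norm_num
  have h1 : HasDerivAt (fun z => α * (z * deriv Y z) + p0 z * Y z)
      (α * (1 * deriv Y 0 + 0 * deriv (deriv Y) 0) + (2 * Y 0 + p0 0 * deriv Y 0)) 0 :=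
    (((hasDerivAt_id (0 : ℂ)).mul hY2).const_mul (α : ℂ)).add (hp.mul hY)
  have h2 : (fun z => α * (z * deriv Y z) + p0 z * Y z) =ᶠ[nhds 0] fun _ => 1 := by
    filter_upwards [ball_nhds] with z hz
    exact h.ode z hz
  have h3 := h1.deriv
  rw [h2.deriv_eq, deriv_const, h.zero] at h3
  have hp00 : p0 0 = 1 := by simp [p0]
  rw [hp00] at h3
  have hα' : (1 : ℂ) + α ≠ 0 := by
    have : (0 : ℝ) < 1 + α := by linarith
    exact_mod_cast this.ne'
  field_simp
  linear_combination -h3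

/-- The value `N(z)`. -/
lemma YData.N_eq (hα : 0 < α) (h : YData α Y) {z : ℂ} (hz : z ∈ ball (0 : ℂ) 1) (hz0 : z ≠ 0) :
    ((1 - z ^ 2) - (1 - z) ^ 2 * (Y z)⁻¹) / (2 * z) =
      -(α / 2) * (1 - z) ^ 2 * (deriv Y z / Y z) := by
  have h1 := h.ode z hz
  have hY := h.ne hα hz
  have h2 := one_sub_ne hz
  rw [p0] at h1
  field_simp
  field_simp at h1
  linear_combination (1 - z) * h1

/-- The N-property -/
theorem YData.N_pos (hα : 0 < α) (h : YData α Y) {z : ℂ} (hz : z ∈ ball (0 : ℂ) 1) :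
    0 < (-(α / 2) * (1 - z) ^ 2 * (deriv Y z / Y z)).re := by
  have hα' : (1 : ℂ) + α ≠ 0 := by
    have : (0 : ℝ) < 1 + α := by linarith
    exact_mod_cast this.ne'
  obtain ⟨N, hN⟩ : ∃ N : ℂ → ℂ, N = fun z => -(α / 2) * (1 - z) ^ 2 * (deriv Y z / Y z) :=
    ⟨_, rfl⟩
  have hN0 : N 0 = ((α / (1 + α) : ℝ) : ℂ) := by
    rw [hN]
    simp only
    rw [h.deriv0 hα, h.zero]
    push_cast
    field_simp
    ring
  have hNd : DifferentiableOn ℂ N (ball 0 1) := by
    rw [hN]
    have h1 : DifferentiableOn ℂ (deriv Y) (ball 0 1) := h.diff.deriv isOpen_ball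
    have h2 : DifferentiableOn ℂ (fun z : ℂ => -(α / 2) * (1 - z) ^ 2) (ball 0 1) := by fun_prop
    exact h2.mul (h1.div h.diff (fun _ hz => h.ne hα hz))
  have hN0' : 0 < (N 0).re := by
    rw [hN0, Complex.ofReal_re]
    positivity
  have hnn : ∀ w ∈ ball (0 : ℂ) 1, 0 ≤ (N w).re := by
    intro w hw
    rcases eq_or_ne w 0 with rfl | hw0
    · exact hN0'.le
    · rw [hN]
      simp only
      rw [← h.N_eq hα hw hw0]
      exact nprop_nonneg (h.qdiff hα) (by rw [h.zero, inv_one])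
        (fun z hz => inv_re_pos (h.re hα hz)) hw hw0
  have hgoal : 0 < (N z).re := by
    rcases (hnn z hz).lt_or_eq with h1 | h1
    · exact h1
    · exfalso
      have he : DifferentiableOn ℂ (fun w => Complex.exp (-N w)) (ball 0 1) := hNd.neg.cexp
      have hm : IsMaxOn (norm ∘ fun w => Complex.exp (-N w)) (ball 0 1) z := by
        intro w hw
        simp only [Set.mem_ofPred_eq, Function.comp]
        rw [Complex.norm_exp, Complex.norm_exp, Real.exp_le_exp, Complex.neg_re, Complex.neg_re,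
          ← h1]
        have := hnn w hw
        linarith
      have h2 := Complex.norm_eqOn_of_isPreconnected_of_isMaxOn
        (convex_ball (0 : ℂ) 1).isPreconnected isOpen_ball he hz hm
      have h3 := h2 zero_mem
      simp only [Function.comp, Function.const_apply] at h3
      rw [Complex.norm_exp, Complex.norm_exp, Real.exp_eq_exp, Complex.neg_re, Complex.neg_re,
        ← h1] at h3
      linarith
  rw [hN] at hgoal
  exact hgoal

lemma YData.deriv_ne (hα : 0 < α) (h : YData α Y) {z : ℂ} (hz : z ∈ ball (0 : ℂ) 1) :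
    deriv Y z ≠ 0 := by
  intro h0
  have := h.N_pos hα hz
  rw [h0] at this
  simp at this

/-- `Y` is injective. -/
theorem YData.inj (hα : 0 < α) (h : YData α Y) : Set.InjOn Y (ball 0 1) := by
  obtain ⟨c, hc⟩ : ∃ c : ℂ → ℂ, c = fun P => (P - 1) / (P + 1) := ⟨_, rfl⟩
  have hP1 : ∀ P : ℂ, 0 < P.re → P + 1 ≠ 0 := by
    intro P hP h0
    have := congrArg Complex.re h0
    rw [Complex.add_re, Complex.one_re, Complex.zero_re] at this
    linarith
  have hcm : ∀ P : ℂ, 0 < P.re → c P ∈ ball (0 : ℂ) 1 := by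
    intro P hP
    rw [hc, mem_ball_zero_iff]
    simp only
    rw [norm_div, div_lt_one (norm_pos_iff.2 (hP1 P hP))]
    rw [← sq_lt_sq₀ (norm_nonneg _) (norm_nonneg _), ← Complex.normSq_eq_norm_sq,
      ← Complex.normSq_eq_norm_sq, Complex.normSq_apply, Complex.normSq_apply]
    simp only [Complex.sub_re, Complex.one_re, Complex.sub_im, Complex.one_im, Complex.add_re,
      Complex.add_im]
    nlinarith
  have hconv : Convex ℝ {P : ℂ | 0 < P.re} := by
    exact convex_halfSpace_re_gt 0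
  have hder : ∀ P ∈ {P : ℂ | 0 < P.re}, HasDerivAt (fun P => - Complex.log (Y (c P)))
      ((1 / α : ℝ) * (-(α / 2) * (1 - c P) ^ 2 * (deriv Y (c P) / Y (c P)))) P := by
    intro P hP
    have hP' : 0 < P.re := hP
    have h1 : HasDerivAt c (2 / (P + 1) ^ 2) P := by
      have h2 : HasDerivAt (fun P : ℂ => P - 1) 1 P := (hasDerivAt_id P).sub_const 1
      have h3 : HasDerivAt (fun P : ℂ => P + 1) 1 P := (hasDerivAt_id P).add_const 1
      have h4 := h2.div h3 (hP1 P hP')
      rw [hc]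
      convert! h4 using 1
      have := hP1 P hP'
      field_simp
      ring
    have h2 : HasDerivAt Y (deriv Y (c P)) (c P) :=
      (anal h.diff (hcm P hP')).differentiableAt.hasDerivAt
    have h3 : HasDerivAt (fun P => Y (c P)) (deriv Y (c P) * (2 / (P + 1) ^ 2)) P := h2.comp P h1
    have h4 := (h3.clog (Or.inl (h.re hα (hcm P hP')))).neg
    convert! h4 using 1
    have h5 := hP1 P hP'
    have h6 := h.ne hα (hcm P hP')
    have h7 : 1 - c P = 2 / (P + 1) := by
      rw [hc]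
      simp only
      field_simp
      ring
    have hαC : (α : ℂ) ≠ 0 := by exact_mod_cast hα.ne'
    rw [h7]
    push_cast
    field_simp
  have hinj := inj_of_re_deriv_pos hconv hder (by
    intro P hP
    rw [Complex.re_ofReal_mul]
    exact mul_pos (by positivity) (h.N_pos hα (hcm P hP)))
  intro z1 h1 z2 h2 he
  have hcp : ∀ z ∈ ball (0 : ℂ) 1, c (p0 z) = z := by
    intro z hz
    have := one_sub_ne hz
    rw [hc, p0]
    simp only
    have h3 : (1 + z) / (1 - z) + 1 = 2 / (1 - z) := by field_simp; ring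
    rw [h3]
    field_simp
    ring
  have h3 : p0 z1 = p0 z2 := by
    apply hinj (p0_re h1) (p0_re h2)
    simp only
    rw [hcp z1 h1, hcp z2 h2, he]
  rw [← hcp z1 h1, ← hcp z2 h2, h3]

end

end Pool.Agent.Q139.Mal
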