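import Pool.Agent.Q139.Mal.Base
import Pool.Agent.Q139.Baz.Main

namespace Pool.Agent.Q139.Mal
open Pool.Agent.Q139.Baz Metric PowerSeries Finset

/-- Positivity of the real part of the solution. -/
theorem pos_of_ode {α : ℝ} (hα : 0 < α) {y P : ℂ → ℂ} (hy : DifferentiableOn ℂ y (ball 0 1))
    (hP : ∀ z ∈ ball (0 : ℂ) 1, 0 < (P z).re)
    (hode : ∀ z ∈ ball (0 : ℂ) 1, α * (z * deriv y z) + P z * y z = 1) :
    ∀ z ∈ ball (0 : ℂ) 1, 0 < (y z).re := by
  intro z hz
  rw [mem_ball_zero_iff] at hz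
  obtain ⟨z1, hz1, hmin, κ, hκ, he⟩ := jack_re hy (r := (1 + ‖z‖) / 2)
    (by have := norm_nonneg z; linarith) (by linarith)
  have h1 : (y z1).re ≤ (y z).re := hmin z (by linarith)
  refine lt_of_lt_of_le ?_ h1
  have hz1' : z1 ∈ ball (0 : ℂ) 1 := by rw [mem_ball_zero_iff, hz1]; linarith
  have h2 := hode z1 hz1'
  rw [he] at h2
  have h3 : P z1 * y z1 = ((1 + α * κ : ℝ) : ℂ) := by
    push_cast
    linear_combination h2
  have hPp := hP z1 hz1'
  have hP0 : P z1 ≠ 0 := by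
    intro h; rw [h] at hPp; simp at hPp
  have h4 : y z1 = ((1 + α * κ : ℝ) : ℂ) * (P z1)⁻¹ := by
    rw [← h3]; field_simp
  rw [h4, Complex.re_ofReal_mul, Complex.inv_re]
  have h5 : 0 < Complex.normSq (P z1) := Complex.normSq_pos.2 hP0
  positivity

/-- the function `(1+z)/(1-z)`. -/
noncomputable def p0 (z : ℂ) : ℂ := (1 + z) / (1 - z)

lemma one_sub_ne {z : ℂ} (hz : z ∈ ball (0 : ℂ) 1) : (1 : ℂ) - z ≠ 0 := by
  intro h0
  rw [mem_ball_zero_iff] at hz
  have : z = 1 := by linear_combination -h0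
  rw [this, norm_one] at hz
  exact lt_irrefl _ hz

lemma re_inv_one_sub {z : ℂ} (hz : z ∈ ball (0 : ℂ) 1) : 1 / 2 < ((1 - z)⁻¹).re := by
  have h0 := one_sub_ne hz
  have h5 : 0 < Complex.normSq (1 - z) := Complex.normSq_pos.2 h0
  rw [Complex.inv_re, lt_div_iff₀ h5]
  rw [mem_ball_zero_iff] at hz
  have h1 : ‖z‖ ^ 2 < 1 := by
    have := norm_nonneg z
    nlinarith
  rw [← Complex.normSq_eq_norm_sq, Complex.normSq_apply] at h1
  rw [Complex.normSq_apply]
  simp only [Complex.sub_re, Complex.one_re, Complex.sub_im, Complex.one_im]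
  nlinarith

lemma p0_eq {z : ℂ} (hz : z ∈ ball (0 : ℂ) 1) : p0 z = 2 * (1 - z)⁻¹ - 1 := by
  have h0 := one_sub_ne hz
  rw [p0]
  field_simp
  ring

lemma p0_re {z : ℂ} (hz : z ∈ ball (0 : ℂ) 1) : 0 < (p0 z).re := by
  have h1 := re_inv_one_sub hz
  rw [p0_eq hz, Complex.sub_re, Complex.one_re]
  have : (2 * (1 - z)⁻¹ : ℂ).re = 2 * ((1 - z)⁻¹).re := by
    have := Complex.re_ofReal_mul 2 ((1 - z)⁻¹)
    push_cast at this
    exact this
  rw [this]
  linarith

lemma p0_diff : DifferentiableOn ℂ p0 (ball 0 1) := by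
  intro z hz
  have h0 := one_sub_ne hz
  apply DifferentiableAt.differentiableWithinAt
  unfold p0
  fun_prop (disch := exact h0)

/-- `ts` determines an analytic function. -/
lemma ts_inj {f g : ℂ → ℂ} (hf : DifferentiableOn ℂ f (ball 0 1))
    (hg : DifferentiableOn ℂ g (ball 0 1)) (h : ts f = ts g) :
    ∀ z ∈ ball (0 : ℂ) 1, f z = g z := by
  intro z hz
  rw [mem_ball_zero_iff] at hz
  have h1 := taylor_hasSum hf hz
  have h2 := taylor_hasSum hg hz
  have h3 : (fun k => tc f k * z ^ k) = fun k => tc g k * z ^ k := by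
    funext k; rw [← coeff_ts, h, coeff_ts]
  rw [h3] at h1
  exact h1.unique h2

lemma ts_const (c : ℂ) : ts (fun _ : ℂ => c) = C c := by
  ext n
  rw [coeff_ts, tc, coeff_C, iteratedDeriv_const]
  split_ifs with h
  · rw [h]; simp
  · simp

lemma ts_p0 : ts p0 = 2 * Ks ℂ - 1 := ts_koebe p0_diff (fun _ _ => rfl)

/-- Noshiro, Warschawski. -/
theorem inj_of_re_deriv_pos {U : Set ℂ} (hU : Convex ℝ U) {G G' : ℂ → ℂ}
    (hG : ∀ z ∈ U, HasDerivAt G (G' z) z) (hpos : ∀ z ∈ U, 0 < (G' z).re) : Set.InjOn G U := by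
  intro z1 h1 z2 h2 he
  by_contra hne
  obtain ⟨d, hd⟩ : ∃ d, d = z2 - z1 := ⟨_, rfl⟩
  have hd0 : d ≠ 0 := by rw [hd]; exact sub_ne_zero.2 (Ne.symm hne)
  have hmem : ∀ s ∈ Set.Icc (0 : ℝ) 1, z1 + s * d ∈ U := by
    intro s hs
    have := hU h1 h2 (by linarith [hs.2] : (0 : ℝ) ≤ 1 - s) hs.1 (by ring)
    convert! this using 1
    rw [hd]
    simp only [Complex.real_smul]
    push_cast
    ring
  have hder : ∀ s ∈ Set.Icc (0 : ℝ) 1, HasDerivAt (fun s : ℝ => (G (z1 + s * d) *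
      (starRingEnd ℂ) d).re) (((G' (z1 + s * d)) * d * (starRingEnd ℂ) d).re) s := by
    intro s hs
    have h3 : HasDerivAt (fun t : ℂ => z1 + t * d) d (s : ℂ) := by
      have := ((hasDerivAt_id (s : ℂ)).mul_const d).const_add z1
      simpa using this
    have h4 := (hG _ (hmem s hs)).comp (s : ℂ) h3
    have h5 := (h4.mul_const ((starRingEnd ℂ) d)).real_of_complex
    exact h5
  have hpos2 : ∀ s ∈ Set.Icc (0 : ℝ) 1, 0 < ((G' (z1 + s * d)) * d * (starRingEnd ℂ) d).re := by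
    intro s hs
    rw [mul_assoc, Complex.mul_conj, Complex.re_mul_ofReal]
    exact mul_pos (hpos _ (hmem s hs)) (Complex.normSq_pos.2 hd0)
  have hmono : StrictMonoOn (fun s : ℝ => (G (z1 + s * d) *
      (starRingEnd ℂ) d).re) (Set.Icc 0 1) := by
    apply strictMonoOn_of_deriv_pos (convex_Icc 0 1)
    · intro s hs
      exact (hder s hs).continuousAt.continuousWithinAt
    · intro s hs
      rw [interior_Icc] at hs
      have hs' : s ∈ Set.Icc (0 : ℝ) 1 := ⟨hs.1.le, hs.2.le⟩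
      rw [(hder s hs').deriv]
      exact hpos2 s hs'
  have h6 := hmono (Set.left_mem_Icc.2 zero_le_one) (Set.right_mem_Icc.2 zero_le_one) one_pos
  simp only [Complex.ofReal_zero, zero_mul, add_zero, Complex.ofReal_one, one_mul] at h6
  rw [hd, show z1 + (z2 - z1) = z2 by ring, he] at h6
  exact lt_irrefl _ h6

end Pool.Agent.Q139.Mal
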