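import Pool.Agent.Q139.Baz.Tay

namespace Pool.Agent.Q139.Mal
open Pool.Agent.Q139.Baz Metric

/-- an injective analytic function has a nonvanishing derivative -/
theorem deriv_ne_of_inj {f : ℂ → ℂ} {U : Set ℂ} (hU : IsOpen U) (hf : DifferentiableOn ℂ f U)
    (hinj : Set.InjOn f U) {z0 : ℂ} (hz0 : z0 ∈ U) : deriv f z0 ≠ 0 := by
  intro h0
  have hUn : U ∈ nhds z0 := hU.mem_nhds hz0
  have ha : AnalyticAt ℂ f z0 := hf.analyticAt hUn
  have hga : AnalyticAt ℂ (fun z => f z - f z0) z0 := ha.sub analyticAt_const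
  have hne : ¬ ∀ᶠ z in nhds z0, f z - f z0 = 0 := by
    intro hev
    have h1 : ∀ᶠ z in nhds z0, z ∈ ({z0} : Set ℂ) := by
      filter_upwards [hev, hUn] with z hz hzU
      exact hinj hzU hz0 (sub_eq_zero.1 hz)
    have h2 : ({z0} : Set ℂ) ∈ nhds z0 := h1
    have h3 : IsOpen ({z0} : Set ℂ) := by
      rw [isOpen_iff_mem_nhds]
      intro x hx
      rw [Set.mem_singleton_iff.1 hx]; exact h2
    exact not_isOpen_singleton z0 h3
  obtain ⟨n, h, hh, hh0, hev⟩ := hga.exists_eventuallyEq_pow_smul_nonzero_iff.2 hne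
  have hn0 : n ≠ 0 := by
    intro hn
    have h1 := hev.self_of_nhds
    rw [hn, pow_zero, one_smul, sub_self] at h1
    exact hh0 h1.symm
  have hn1 : n ≠ 1 := by
    intro hn
    have h1 : HasDerivAt (fun z => (z - z0) * h z) (h z0) z0 := by
      have h2 := ((hasDerivAt_id z0).sub_const z0).mul hh.differentiableAt.hasDerivAt
      convert! h2 using 1
      simp
    have h2 : (fun z => f z - f z0) =ᶠ[nhds z0] fun z => (z - z0) * h z := by
      filter_upwards [hev] with z hz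
      rw [hz, hn, pow_one, smul_eq_mul]
    have h3 : deriv (fun z => f z - f z0) z0 = h z0 := by rw [h2.deriv_eq, h1.deriv]
    have h4 : deriv (fun z => f z - f z0) z0 = deriv f z0 := by
      rw [deriv_sub_const]
    rw [h4, h0] at h3
    exact hh0 h3.symm
  have hn2 : 1 < n := by omega
  have hnpos : 0 < n := by omega
  have hnC : (n : ℂ) ≠ 0 := by exact_mod_cast hnpos.ne'
  obtain ⟨c, hc⟩ := IsAlgClosed.exists_pow_nat_eq (h z0) hnpos
  have hc0 : c ≠ 0 := by
    intro hc0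
    rw [hc0, zero_pow hn0] at hc
    exact hh0 hc.symm
  obtain ⟨E, hE⟩ : ∃ E : ℂ → ℂ, E = fun z => Complex.exp (Complex.log (h z / h z0) / n) :=
    ⟨_, rfl⟩
  have hra : AnalyticAt ℂ (fun z => h z / h z0) z0 := hh.div analyticAt_const hh0
  have hEa : AnalyticAt ℂ E z0 := by
    rw [hE]
    have h1 : AnalyticAt ℂ (fun z => Complex.log (h z / h z0)) z0 := by
      apply hra.clog
      rw [div_self hh0]
      exact Or.inl (by simp)
    exact (h1.div analyticAt_const hnC).cexp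
  have hE0 : E z0 = 1 := by rw [hE]; simp [div_self hh0]
  obtain ⟨ψ, hψ⟩ : ∃ ψ : ℂ → ℂ, ψ = fun z => (z - z0) * (c * E z) := ⟨_, rfl⟩
  have hψa : AnalyticAt ℂ ψ z0 := by
    rw [hψ]
    exact (analyticAt_id.sub analyticAt_const).mul (analyticAt_const.mul hEa)
  have hψd : deriv ψ z0 = c := by
    have h2 := ((hasDerivAt_id z0).sub_const z0).mul (hEa.differentiableAt.hasDerivAt.const_mul c)
    rw [hψ]
    have h3 := h2.deriv
    simp only [id, sub_self, zero_mul, add_zero, one_mul, hE0, mul_one] at h3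
    exact h3
  have hψ0 : ψ z0 = 0 := by rw [hψ]; simp
  have hmap : Filter.map ψ (nhds z0) = nhds 0 := by
    rw [← hψ0]
    exact hψa.hasStrictDerivAt.map_nhds_eq (by rw [hψd]; exact hc0)
  have hpow : ∀ᶠ z in nhds z0, f z - f z0 = ψ z ^ n := by
    have hhne : ∀ᶠ z in nhds z0, h z ≠ 0 := hh.continuousAt.eventually_ne hh0
    filter_upwards [hev, hhne] with z hz hz2
    rw [hz, hψ, smul_eq_mul, mul_pow, mul_pow, hc, hE]
    simp only
    rw [← Complex.exp_nat_mul, mul_div_cancel₀ _ hnC, Complex.exp_log (div_ne_zero hz2 hh0),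
      mul_div_cancel₀ _ hh0]
  have hV : {z | z ∈ U ∧ f z - f z0 = ψ z ^ n} ∈ nhds z0 := by
    filter_upwards [hUn, hpow] with z h1 h2
    exact ⟨h1, h2⟩
  have himg : ψ '' {z | z ∈ U ∧ f z - f z0 = ψ z ^ n} ∈ nhds (0 : ℂ) := by
    rw [← hmap]
    exact Filter.image_mem_map hV
  obtain ⟨δ, hδ, hball⟩ := Metric.mem_nhds_iff.1 himg
  have hζ := Complex.isPrimitiveRoot_exp n hnpos.ne'
  obtain ⟨ζ, hζd⟩ : ∃ ζ, ζ = Complex.exp (2 * Real.pi * Complex.I / (n : ℂ)) := ⟨_, rfl⟩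
  rw [← hζd] at hζ
  have hζn : ‖ζ‖ = 1 := Complex.norm_eq_one_of_pow_eq_one hζ.pow_eq_one hnpos.ne'
  have hm1 : ((δ / 2 : ℝ) : ℂ) ∈ ball (0 : ℂ) δ := by
    rw [mem_ball_zero_iff, Complex.norm_real, Real.norm_of_nonneg (by linarith)]; linarith
  have hm2 : ((δ / 2 : ℝ) : ℂ) * ζ ∈ ball (0 : ℂ) δ := by
    rw [mem_ball_zero_iff, norm_mul, hζn, mul_one, Complex.norm_real,
      Real.norm_of_nonneg (by linarith)]; linarith
  obtain ⟨u, ⟨hu1, hu2⟩, hu3⟩ := hball hm1
  obtain ⟨v, ⟨hv1, hv2⟩, hv3⟩ := hball hm2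
  have huv : f u = f v := by
    rw [hu3] at hu2
    rw [hv3, mul_pow, hζ.pow_eq_one, mul_one] at hv2
    rw [← hv2] at hu2
    linear_combination hu2
  have := hinj hu1 hv1 huv
  rw [this] at hu3
  rw [hu3] at hv3
  have hδC : ((δ / 2 : ℝ) : ℂ) ≠ 0 := by
    have : (0 : ℝ) < δ / 2 := by linarith
    exact_mod_cast this.ne'
  apply hζ.ne_one hn2
  apply mul_left_cancel₀ hδC
  rw [← hv3, mul_one]

end Pool.Agent.Q139.Mal
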